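import Pool.Agent.Helper69.RSW.Prob
import Pool.Agent.Helper47.Perc.Defs

set_option autoImplicit false

namespace Pool.Agent.Helper69.RSW

open H47Perc

/-- `perc half` is the uniform probability on the subsets of `edgesIn S` -/
theorem perc_half_eq (S : Finset (ℤ × ℤ)) (A : Finset (Sym2 (ℤ × ℤ)) → Prop) :
    perc half S A = P (edgesIn S) A := by
  classical
  unfold perc P half
  have h : ∀ w ∈ (edgesIn S).powerset.filter A,
      (∏ _e ∈ w, (1 / 2 : ℝ)) * ∏ _e ∈ edgesIn S \ w, (1 - 1 / 2 : ℝ)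
        = ((2 : ℝ) ^ (edgesIn S).card)⁻¹ := by
    intro w hw
    rw [Finset.mem_filter, Finset.mem_powerset] at hw
    rw [Finset.prod_const, Finset.prod_const, show (1 - 1 / 2 : ℝ) = 1 / 2 by norm_num,
      ← pow_add, Finset.card_sdiff_of_subset hw.1, Nat.add_sub_cancel' (Finset.card_le_card hw.1),
      one_div, inv_pow]
  have h2 : ∀ w ∈ @Finset.filter _ A (fun a => Classical.propDecidable (A a)) (edgesIn S).powerset,
      (∏ _e ∈ w, (1 / 2 : ℝ)) * ∏ _e ∈ @SDiff.sdiff _ _ (edgesIn S) w, (1 - 1 / 2 : ℝ)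
        = ((2 : ℝ) ^ (edgesIn S).card)⁻¹ := by
    intro w hw
    exact h w (by simpa only [Finset.mem_filter] using hw)
  rw [Finset.sum_congr rfl (fun w hw => ?_), Finset.sum_const, nsmul_eq_mul, div_eq_mul_inv]
  refine Eq.trans ?_ (h2 w hw)
  congr!

end Pool.Agent.Helper69.RSW
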