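import Mathlib

/-!
Finite uniform percolation probabilities: a configuration on the finite edge set `F` is a subset
`S` of `F` (the open edges), all `2^|F|` subsets being equally likely.
-/

set_option autoImplicit false
set_option linter.unusedSectionVars false

namespace Pool.Agent.Helper69.RSW

variable {E : Type*} [DecidableEq E]

open Classical in
/-- `P F A`: probability of `A` when every edge of `F` is open with probability `1/2`. -/
noncomputable def P (F : Finset E) (A : Finset E → Prop) : ℝ :=
  ((F.powerset.filter A).card : ℝ) / 2 ^ F.card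

lemma P_nonneg (F : Finset E) (A : Finset E → Prop) : 0 ≤ P F A := by
  unfold P; positivity

lemma P_mono {F : Finset E} {A B : Finset E → Prop} (h : ∀ S ⊆ F, A S → B S) :
    P F A ≤ P F B := by
  classical
  unfold P
  apply div_le_div_of_nonneg_right _ (by positivity)
  exact_mod_cast Finset.card_le_card (fun S hS => by
    rw [Finset.mem_filter, Finset.mem_powerset] at hS ⊢
    exact ⟨hS.1, h S hS.1 hS.2⟩)

lemma P_congr {F : Finset E} {A B : Finset E → Prop} (h : ∀ S ⊆ F, (A S ↔ B S)) :
    P F A = P F B :=
  le_antisymm (P_mono fun S hS => (h S hS).1) (P_mono fun S hS => (h S hS).2)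

lemma P_true (F : Finset E) : P F (fun _ => True) = 1 := by
  unfold P
  have : (Finset.filter (fun _ : Finset E => True) F.powerset).card = 2 ^ F.card := by
    rw [← Finset.card_powerset]
    congr 1
    ext S; simp only [Finset.mem_filter, and_true]
  rw [div_eq_one_iff_eq (by positivity)]
  refine Eq.trans ?_ (congrArg (Nat.cast : ℕ → ℝ) this |>.trans (by push_cast; rfl))
  congr 2
  ext S; simp only [Finset.mem_filter]

lemma P_false (F : Finset E) : P F (fun _ => False) = 0 := by
  unfold P
  rw [div_eq_zero_iff]
  left
  rw [Nat.cast_eq_zero, Finset.card_eq_zero, Finset.eq_empty_iff_forall_notMem]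
  intro S hS
  simp only [Finset.mem_filter, and_false] at hS

lemma P_le_one (F : Finset E) (A : Finset E → Prop) : P F A ≤ 1 := by
  rw [← P_true F]
  exact P_mono (fun _ _ _ => trivial)

lemma P_or_le (F : Finset E) (A B : Finset E → Prop) :
    P F (fun S => A S ∨ B S) ≤ P F A + P F B := by
  classical
  unfold P
  rw [← add_div]
  apply div_le_div_of_nonneg_right _ (by positivity)
  rw [← Nat.cast_add, Nat.cast_le]
  refine le_trans (Finset.card_le_card (fun S hS => ?_)) (Finset.card_union_le _ _)
  simp only [Finset.mem_filter, Finset.mem_union] at hS ⊢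
  tauto

lemma P_add_of_disjoint (F : Finset E) (A B : Finset E → Prop) (h : ∀ S ⊆ F, ¬ (A S ∧ B S)) :
    P F (fun S => A S ∨ B S) = P F A + P F B := by
  classical
  unfold P
  rw [← add_div]
  congr 1
  have hd : Disjoint (F.powerset.filter A) (F.powerset.filter B) := by
    rw [Finset.disjoint_left]
    intro S h1 h2
    rw [Finset.mem_filter, Finset.mem_powerset] at h1 h2
    exact h S h1.1 ⟨h1.2, h2.2⟩
  rw [← Nat.cast_add, Nat.cast_inj]
  have := Finset.card_union_of_disjoint hd
  refine Eq.trans (congrArg Finset.card ?_) this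
  ext S
  simp only [Finset.mem_filter, Finset.mem_union]
  tauto

lemma P_compl (F : Finset E) (A : Finset E → Prop) :
    P F A + P F (fun S => ¬ A S) = 1 := by
  rw [← P_add_of_disjoint F A (fun S => ¬ A S) (fun S _ h => h.2 h.1), ← P_true F]
  exact P_congr (fun S _ => by simp [em])

/-- sum over a finite partition by the values of a function -/
lemma P_sum {ι : Type*} [DecidableEq ι] (F : Finset E) (D : Finset E → ι) (I : Finset ι)
    (A : Finset E → Prop) (h : ∀ S ⊆ F, A S → D S ∈ I) :
    P F A = ∑ i ∈ I, P F (fun S => D S = i ∧ A S) := by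
  classical
  unfold P
  rw [← Finset.sum_div]
  congr 1
  rw [Finset.card_eq_sum_card_fiberwise (f := D) (t := I)]
  · push_cast
    apply Finset.sum_congr rfl
    intro i _
    congr 2
    ext S
    simp only [Finset.mem_filter]
    tauto
  · intro S hS
    rw [Finset.mem_coe, Finset.mem_filter, Finset.mem_powerset] at hS
    exact h S hS.1 hS.2

/-- `A` depends only on the edges in `G` -/
def Dep (G : Finset E) (A : Finset E → Prop) : Prop := ∀ S, A S ↔ A (S ∩ G)

lemma Dep.mono {G G' : Finset E} {A : Finset E → Prop} (h : Dep G A) (hG : G ⊆ G') :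
    Dep G' A := by
  intro S
  rw [h S, h (S ∩ G'), Finset.inter_assoc, Finset.inter_eq_right.2 hG]

lemma Dep.and {G : Finset E} {A B : Finset E → Prop} (hA : Dep G A) (hB : Dep G B) :
    Dep G (fun S => A S ∧ B S) := fun S => and_congr (hA S) (hB S)

lemma Dep.or {G : Finset E} {A B : Finset E → Prop} (hA : Dep G A) (hB : Dep G B) :
    Dep G (fun S => A S ∨ B S) := fun S => or_congr (hA S) (hB S)

lemma Dep.not {G : Finset E} {A : Finset E → Prop} (hA : Dep G A) :
    Dep G (fun S => ¬ A S) := fun S => not_congr (hA S)

/-- product formula -/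
lemma P_union {F G : Finset E} (hFG : Disjoint F G) {A B : Finset E → Prop}
    (hA : Dep F A) (hB : Dep G B) :
    P (F ∪ G) (fun S => A S ∧ B S) = P F A * P G B := by
  classical
  unfold P
  rw [Finset.card_union_of_disjoint hFG, pow_add, div_mul_div_comm]
  congr 1
  rw [← Nat.cast_mul, ← Finset.card_product]
  congr 1
  symm
  apply Finset.card_nbij' (i := fun p : Finset E × Finset E => p.1 ∪ p.2)
    (j := fun S => (S ∩ F, S ∩ G))
  · rintro ⟨S, T⟩ h
    simp only [Finset.coe_product, Set.mem_prod, Finset.mem_coe, Finset.mem_filter,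
      Finset.mem_powerset] at h ⊢
    obtain ⟨⟨h1, h2⟩, h3, h4⟩ := h
    have e1 : (S ∪ T) ∩ F = S := by
      rw [Finset.union_inter_distrib_right, Finset.inter_eq_left.2 h1,
        Finset.disjoint_iff_inter_eq_empty.1 (hFG.symm.mono_left h3), Finset.union_empty]
    have e2 : (S ∪ T) ∩ G = T := by
      rw [Finset.union_inter_distrib_right, Finset.inter_eq_left.2 h3,
        Finset.disjoint_iff_inter_eq_empty.1 (hFG.mono_left h1), Finset.empty_union]
    refine ⟨Finset.union_subset_union h1 h3, ?_, ?_⟩
    · rw [hA, e1]; exact h2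
    · rw [hB, e2]; exact h4
  · intro S h
    simp only [Finset.coe_product, Set.mem_prod, Finset.mem_coe, Finset.mem_filter,
      Finset.mem_powerset] at h ⊢
    exact ⟨⟨Finset.inter_subset_right, (hA S).1 h.2.1⟩, Finset.inter_subset_right, (hB S).1 h.2.2⟩
  · rintro ⟨S, T⟩ h
    simp only [Finset.coe_product, Set.mem_prod, Finset.mem_coe, Finset.mem_filter,
      Finset.mem_powerset] at h
    obtain ⟨⟨h1, h2⟩, h3, h4⟩ := h
    have e1 : (S ∪ T) ∩ F = S := by
      rw [Finset.union_inter_distrib_right, Finset.inter_eq_left.2 h1,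
        Finset.disjoint_iff_inter_eq_empty.1 (hFG.symm.mono_left h3), Finset.union_empty]
    have e2 : (S ∪ T) ∩ G = T := by
      rw [Finset.union_inter_distrib_right, Finset.inter_eq_left.2 h3,
        Finset.disjoint_iff_inter_eq_empty.1 (hFG.mono_left h1), Finset.empty_union]
    simp only [e1, e2]
  · intro S h
    simp only [Finset.mem_coe, Finset.mem_filter, Finset.mem_powerset] at h
    simp only
    rw [← Finset.inter_union_distrib_left, Finset.inter_eq_left.2 h.1]

lemma dep_true (G : Finset E) : Dep G (fun _ => True) := fun _ => Iff.rfl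

/-- restriction to the relevant edges -/
lemma P_restrict {F G : Finset E} (hGF : G ⊆ F) {A : Finset E → Prop} (hA : Dep G A) :
    P F A = P G A := by
  have h1 : F = G ∪ (F \ G) := (Finset.union_sdiff_of_subset hGF).symm
  have h2 := P_union (F := G) (G := F \ G) Finset.disjoint_sdiff hA (dep_true _)
  rw [P_true, mul_one, ← h1] at h2
  rw [← h2]
  exact P_congr (fun S _ => by simp)

/-- independence -/
lemma P_indep {F G H : Finset E} (hG : G ⊆ F) (hH : H ⊆ F) (hGH : Disjoint G H)
    {A B : Finset E → Prop} (hA : Dep G A) (hB : Dep H B) :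
    P F (fun S => A S ∧ B S) = P F A * P F B := by
  rw [P_restrict hG hA, P_restrict hH hB, ← P_union hGH hA hB]
  apply P_restrict (Finset.union_subset hG hH)
  exact (hA.mono Finset.subset_union_left).and (hB.mono Finset.subset_union_right)

/-- one edge more -/
lemma P_insert {F : Finset E} {e : E} (he : e ∉ F) (A : Finset E → Prop) :
    P (insert e F) A = (P F A + P F (fun S => A (insert e S))) / 2 := by
  classical
  unfold P
  rw [Finset.card_insert_of_notMem he, Finset.powerset_insert, Finset.filter_union,
    Finset.card_union_of_disjoint]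
  · have : ((F.powerset.image (insert e)).filter (fun S => A S)).card =
        (F.powerset.filter (fun S => A (insert e S))).card := by
      rw [Finset.filter_image]
      apply Finset.card_image_of_injOn
      intro S hS T hT hST
      simp only [Finset.coe_filter, Finset.mem_powerset, Set.mem_ofPred_eq] at hS hT
      have h1 : e ∉ S := fun h => he (hS.1 h)
      have h2 : e ∉ T := fun h => he (hT.1 h)
      rw [← Finset.erase_insert h1, ← Finset.erase_insert h2]
      exact congrArg (fun U => Finset.erase U e) hST
    rw [this, pow_succ]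
    push_cast
    field_simp
  · rw [Finset.disjoint_left]
    intro S h1 h2
    rw [Finset.mem_filter, Finset.mem_powerset] at h1
    rw [Finset.mem_filter, Finset.mem_image] at h2
    obtain ⟨⟨T, _, hT⟩, _⟩ := h2
    exact he (h1.1 (hT ▸ Finset.mem_insert_self e T))

/-- increasing event on the subsets of `F` -/
def Inc (F : Finset E) (A : Finset E → Prop) : Prop := ∀ S T, S ⊆ T → T ⊆ F → A S → A T

/-- increasing event -/
def Up (A : Finset E → Prop) : Prop := ∀ S T, S ⊆ T → A S → A T

lemma Up.inc {A : Finset E → Prop} (h : Up A) (F : Finset E) : Inc F A :=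
  fun S T h1 _ h3 => h S T h1 h3

lemma Up.and {A B : Finset E → Prop} (hA : Up A) (hB : Up B) : Up (fun S => A S ∧ B S) :=
  fun S T h1 h2 => ⟨hA S T h1 h2.1, hB S T h1 h2.2⟩

lemma Up.or {A B : Finset E → Prop} (hA : Up A) (hB : Up B) : Up (fun S => A S ∨ B S) :=
  fun S T h1 h2 => h2.imp (hA S T h1) (hB S T h1)

/-- Harris inequality -/
lemma harris_inc (F : Finset E) : ∀ (A B : Finset E → Prop), Inc F A → Inc F B →
    P F A * P F B ≤ P F (fun S => A S ∧ B S) := by
  classical
  induction F using Finset.induction_on with
  | empty =>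
    intro A B _ _
    unfold P
    simp only [Finset.powerset_empty, Finset.card_empty, pow_zero, div_one]
    by_cases hA : A ∅ <;> by_cases hB : B ∅ <;>
      simp [Finset.filter_singleton, hA, hB]
  | insert e F he ih =>
    intro A B hA hB
    rw [P_insert he A, P_insert he B, P_insert he]
    have hA0 : Inc F A := fun S T h1 h2 h3 =>
      hA S T h1 (h2.trans (Finset.subset_insert _ _)) h3
    have hB0 : Inc F B := fun S T h1 h2 h3 =>
      hB S T h1 (h2.trans (Finset.subset_insert _ _)) h3
    have hA1 : Inc F (fun S => A (insert e S)) := fun S T h1 h2 h3 =>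
      hA _ _ (Finset.insert_subset_insert e h1) (Finset.insert_subset_insert e h2) h3
    have hB1 : Inc F (fun S => B (insert e S)) := fun S T h1 h2 h3 =>
      hB _ _ (Finset.insert_subset_insert e h1) (Finset.insert_subset_insert e h2) h3
    have i0 := ih A B hA0 hB0
    have i1 := ih _ _ hA1 hB1
    have mA : P F A ≤ P F (fun S => A (insert e S)) :=
      P_mono (fun S hS h => hA S _ (Finset.subset_insert _ _) (Finset.insert_subset_insert e hS) h)
    have mB : P F B ≤ P F (fun S => B (insert e S)) :=
      P_mono (fun S hS h => hB S _ (Finset.subset_insert _ _) (Finset.insert_subset_insert e hS) h)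
    nlinarith [mul_nonneg (sub_nonneg.2 mA) (sub_nonneg.2 mB)]

lemma harris (F : Finset E) {A B : Finset E → Prop} (hA : Up A) (hB : Up B) :
    P F A * P F B ≤ P F (fun S => A S ∧ B S) :=
  harris_inc F A B (hA.inc F) (hB.inc F)

/-- flipping open and closed edges -/
lemma P_flip (F : Finset E) (A : Finset E → Prop) : P F A = P F (fun S => A (F \ S)) := by
  classical
  unfold P
  congr 2
  apply Finset.card_nbij' (i := fun S => F \ S) (j := fun S => F \ S)
  · intro S h
    simp only [Finset.mem_coe, Finset.mem_filter, Finset.mem_powerset] at h ⊢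
    refine ⟨Finset.sdiff_subset, ?_⟩
    rw [Finset.sdiff_sdiff_eq_self h.1]
    exact h.2
  · intro S h
    simp only [Finset.mem_coe, Finset.mem_filter, Finset.mem_powerset] at h ⊢
    exact ⟨Finset.sdiff_subset, h.2⟩
  · intro S h
    simp only [Finset.mem_coe, Finset.mem_filter, Finset.mem_powerset] at h
    exact Finset.sdiff_sdiff_eq_self h.1
  · intro S h
    simp only [Finset.mem_coe, Finset.mem_filter, Finset.mem_powerset] at h
    exact Finset.sdiff_sdiff_eq_self h.1

/-- relabelling -/
lemma P_map {E' : Type*} [DecidableEq E'] (F : Finset E) (φ : E ↪ E') (A : Finset E' → Prop) :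
    P (F.map φ) A = P F (fun S => A (S.map φ)) := by
  classical
  unfold P
  rw [Finset.card_map]
  congr 2
  symm
  apply Finset.card_bij (i := fun S _ => S.map φ)
  · intro S h
    simp only [Finset.mem_filter, Finset.mem_powerset] at h ⊢
    exact ⟨Finset.map_subset_map.2 h.1, h.2⟩
  · intro S _ T _ h
    exact Finset.map_injective φ h
  · intro T h
    simp only [Finset.mem_filter, Finset.mem_powerset] at h
    obtain ⟨S, hS, rfl⟩ := Finset.subset_map_iff.1 h.1
    refine ⟨S, ?_, rfl⟩
    simp only [Finset.mem_filter, Finset.mem_powerset]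
    exact ⟨hS, h.2⟩

end Pool.Agent.Helper69.RSW
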