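import Pool.Agent.Helper47.Perc.Isotropy

/-!
The half-plane one-arm exponent is smaller than `1/2` (from the flat-side rule), by helper69.
-/

set_option autoImplicit false

namespace H47Perc
open Finset
open Pool.Agent.Helper69.RSW (P P_mono P_map P_restrict P_congr Dep Up harris P_nonneg)

/-! ### comparison of arm probabilities with `piH` -/

lemma piH_arm (a b : ℝ) (k : ℕ) (u : ℤ × ℤ) :
    piH a b k = armP ((halfBox a b k).map (transl u).toEmbedding) u k := by
  rw [piH_eq (n := k) (halfBox a b k) (halfBox_inter a b le_rfl)]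
  have e : (transl u) (0, 0) = u := by simp [transl]
  conv_rhs => rw [← e]
  rw [e]
  have h := armP_map (transl_sym u) (halfBox a b k) (0, 0) k
  rw [e] at h
  exact h.symm

lemma mem_halfBox_transl {a b : ℝ} {k : ℤ} {u w : ℤ × ℤ} :
    w ∈ (halfBox a b k).map (transl u).toEmbedding ↔
      (|w.1 - u.1| ≤ k ∧ |w.2 - u.2| ≤ k) ∧ a * (w.1 - u.1 : ℝ) + b * (w.2 - u.2 : ℝ) ≤ 0 := by
  rw [mem_map_equiv, mem_halfBox, mem_ball]
  have e1 : (transl u).symm w = w - u := by
    simp [transl, sub_eq_add_neg]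
  rw [e1]
  simp only [Prod.fst_sub, Prod.snd_sub, Int.cast_sub, sub_zero]

/-- an arm in a subset of a half-plane -/
lemma armP_le_piH {S : Finset (ℤ × ℤ)} {u : ℤ × ℤ} {k : ℕ} {a b : ℝ}
    (h : ∀ w ∈ S, a * (w.1 - u.1 : ℝ) + b * (w.2 - u.2 : ℝ) ≤ 0) : armP S u k ≤ piH a b k := by
  rw [piH_arm a b k u]
  apply armP_mono
  intro w hw
  rw [mem_inter, mem_ball] at hw
  rw [mem_halfBox_transl]
  exact ⟨hw.2, h w hw.1⟩

/-- an arm in a superset of a half ball -/
lemma piH_le_armP {S : Finset (ℤ × ℤ)} {u : ℤ × ℤ} {k : ℕ} {a b : ℝ}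
    (h : ∀ w : ℤ × ℤ, |w.1 - u.1| ≤ k → |w.2 - u.2| ≤ k →
      a * (w.1 - u.1 : ℝ) + b * (w.2 - u.2 : ℝ) ≤ 0 → w ∈ S) : piH a b k ≤ armP S u k := by
  rw [piH_arm a b k u]
  apply armP_mono
  intro w hw
  rw [mem_inter, mem_halfBox_transl] at hw
  exact h w hw.1.1.1 hw.1.1.2 hw.1.2

/-- the half-plane one-arm probability -/
noncomputable def pH (k : ℕ) : ℝ := piH 0 1 k

lemma pH_down (k : ℕ) : piH 0 (-1) k = pH k := piH_reflY 0 1 k
lemma pH_right (k : ℕ) : piH 1 0 k = pH k := piH_transp 0 1 k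
lemma pH_nonneg (k : ℕ) : 0 ≤ pH k := piH_nonneg _ _ _

/-! ### the flat side -/

/-- the flat-side rule at `p = 1/2` for the boxes `[-M,M] × [0,n]` -/
def FlatRule : Prop := ∀ M n : ℤ, 0 ≤ M → 0 ≤ n →
  (∑ x ∈ Icc (-M) M, cn (box (-M) M 0 n) (x, n)) + (∑ y ∈ Icc 0 n, cn (box (-M) M 0 n) (M, y))
    = 2 + ∑ x ∈ Icc 1 M, cn (box (-M) M 0 n) (x, 0)

/-- upper bound for the exits of the box `[-n,n] × [0,n]` -/
lemma flat_upper {n : ℤ} {k : ℕ} (hk : 2 * (k : ℤ) < n) {z : ℤ × ℤ} (hz : z ∈ box (-n) n 0 n)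
    (h : z.2 = n ∨ z.1 = n) : cn (box (-n) n 0 n) z ≤ pH k ^ 2 := by
  rw [mem_box] at hz
  have h1 : cn (box (-n) n 0 n) z ≤ armP (box (-n) n 0 n) (0, 0) k
      * armP (box (-n) n 0 n) z k := by
    apply perc_joined_le (by omega)
    rcases h with h | h
    · right
      rw [h]
      simp only [sub_zero]
      rw [abs_of_nonneg (by omega)]
      exact hk
    · left
      rw [h]
      simp only [sub_zero]
      rw [abs_of_nonneg (by omega)]
      exact hk
  have h2 : armP (box (-n) n 0 n) (0, 0) k ≤ pH k := by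
    rw [← pH_down]
    apply armP_le_piH
    intro w hw
    rw [mem_box] at hw
    have : (0 : ℝ) ≤ w.2 := by exact_mod_cast hw.2.2.1
    simp only [Int.cast_zero, sub_zero]
    linarith
  have h3 : armP (box (-n) n 0 n) z k ≤ pH k := by
    rcases h with h | h
    · apply armP_le_piH
      intro w hw
      rw [mem_box] at hw
      have : (w.2 : ℝ) ≤ z.2 := by rw [h]; exact_mod_cast hw.2.2.2
      linarith
    · rw [← pH_right]
      apply armP_le_piH
      intro w hw
      rw [mem_box] at hw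
      have : (w.1 : ℝ) ≤ z.1 := by rw [h]; exact_mod_cast hw.2.1
      linarith
  calc _ ≤ _ := h1
    _ ≤ pH k * pH k := mul_le_mul h2 h3 (armP_nonneg _ _ _) (pH_nonneg k)
    _ = pH k ^ 2 := by ring

/-- lower bound for the points of the flat side -/
theorem flat_lower {n : ℤ} {m : ℕ} (hm : 1 ≤ m) (hmn : 2 * (m : ℤ) ≤ n) {c : ℝ} (hc : 0 ≤ c)
    (hc1 : c ≤ pLR (3 * m) m) :
    c / 8 * pH m ^ 2 ≤ cn (box (-n) n 0 n) (m, 0) := by
  classical
  set S := box (-n) n 0 n with hS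
  have hmem : ∀ w : ℤ × ℤ, w ∈ S ↔ -n ≤ w.1 ∧ w.1 ≤ n ∧ 0 ≤ w.2 ∧ w.2 ≤ n := fun w => mem_box
  have sV1 : box (-m) 0 0 m ⊆ S := box_mono (by omega) (by omega) (by omega) (by omega)
  have sV2 : box 0 m 0 m ⊆ S := box_mono (by omega) (by omega) (by omega) (by omega)
  have sV3 : box m (2 * m) 0 m ⊆ S := box_mono (by omega) (by omega) (by omega) (by omega)
  have sH : box (-m) (2 * m) 0 m ⊆ S := box_mono (by omega) (by omega) (by omega) (by omega)
  have e1 : perc half S (fun ω => BT (-m) 0 0 m (ω ∩ edgesIn (box (-m) 0 0 m))) = pLR m m := by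
    rw [perc_restrict sV1, perc_BT]; simp
  have e2 : perc half S (fun ω => BT 0 m 0 m (ω ∩ edgesIn (box 0 m 0 m))) = pLR m m := by
    rw [perc_restrict sV2, perc_BT]; simp
  have e3 : perc half S (fun ω => BT m (2 * m) 0 m (ω ∩ edgesIn (box m (2 * m) 0 m)))
      = pLR m m := by
    rw [perc_restrict sV3, perc_BT]
    have h1 : ((m : ℤ) - 0) = m := by ring
    have h2 : (2 * (m : ℤ) - m) = m := by ring
    rw [h1, h2]
  have e4 : perc half S (fun ω => LR (-m) (2 * m) 0 m (ω ∩ edgesIn (box (-m) (2 * m) 0 m)))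
      = pLR (3 * m) m := by
    rw [perc_restrict sH, perc_LR]
    have h1 : (2 * (m : ℤ) - (-m)) = 3 * m := by ring
    have h2 : ((m : ℤ) - 0) = m := by ring
    rw [h1, h2]
  have sq : 1 / 2 ≤ pLR m m := half_le_pLR (by omega) (by omega) (by omega)
  have a1 : pH m ≤ armP S (0, 0) m := by
    rw [← pH_down]
    apply piH_le_armP
    intro w h1 h2 h3
    simp only [Int.cast_zero, sub_zero] at h1 h2 h3
    have h4 : (0 : ℝ) ≤ w.2 := by linarith
    have h5 : 0 ≤ w.2 := by exact_mod_cast h4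
    rw [abs_le] at h1 h2
    rw [hmem]
    omega
  have a2 : pH m ≤ armP S (m, 0) m := by
    rw [← pH_down]
    apply piH_le_armP
    intro w h1 h2 h3
    simp only [Int.cast_zero, sub_zero] at h2 h3
    have h4 : (0 : ℝ) ≤ w.2 := by linarith
    have h5 : 0 ≤ w.2 := by exact_mod_cast h4
    rw [abs_le] at h1 h2
    simp only at h1
    rw [hmem]
    omega
  have u1 := arm_up S (0, 0) m
  have u2 := arm_up S (m, 0) m
  have u3 := up_inter (up_BT (-m) 0 0 m) (edgesIn (box (-m) 0 0 m))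
  have u4 := up_inter (up_BT 0 m 0 m) (edgesIn (box 0 m 0 m))
  have u5 := up_inter (up_BT m (2 * m) 0 m) (edgesIn (box m (2 * m) 0 m))
  have u6 := up_inter (up_LR (-m) (2 * m) 0 m) (edgesIn (box (-m) (2 * m) 0 m))
  have h12 := perc_harris S u1 u2
  have h34 := perc_harris S u3 u4
  have h56 := perc_harris S u5 u6
  have h3456 := perc_harris S (u3.and u4) (u5.and u6)
  have hall := perc_harris S (u1.and u2) ((u3.and u4).and (u5.and u6))
  rw [e1, e2] at h34
  rw [e3, e4] at h56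
  have b1 : pH m ^ 2 ≤ perc half S (fun ω => Arm S (0, 0) m ω ∧ Arm S (m, 0) m ω) := by
    refine le_trans ?_ h12
    calc pH m ^ 2 = pH m * pH m := by ring
      _ ≤ _ := mul_le_mul a1 a2 (pH_nonneg m) (armP_nonneg _ _ _)
  have b2 : c / 8 ≤ perc half S (fun ω => (BT (-m) 0 0 m (ω ∩ edgesIn (box (-m) 0 0 m)) ∧
      BT 0 m 0 m (ω ∩ edgesIn (box 0 m 0 m))) ∧
      (BT m (2 * m) 0 m (ω ∩ edgesIn (box m (2 * m) 0 m)) ∧
      LR (-m) (2 * m) 0 m (ω ∩ edgesIn (box (-m) (2 * m) 0 m)))) := by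
    refine le_trans ?_ h3456
    have g1 : 1 / 4 ≤ pLR m m * pLR m m := by nlinarith
    have g2 : c / 2 ≤ pLR m m * pLR (3 * m) m := by nlinarith
    calc c / 8 = 1 / 4 * (c / 2) := by ring
      _ ≤ (pLR m m * pLR m m) * (pLR m m * pLR (3 * m) m) := mul_le_mul g1 g2 (by linarith)
          (by linarith)
      _ ≤ _ := mul_le_mul h34 h56 (by linarith) (perc_half_nonneg _ _)
  have hfin : c / 8 * pH m ^ 2 ≤ perc half S (fun ω =>
      (Arm S (0, 0) m ω ∧ Arm S (m, 0) m ω) ∧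
      (BT (-m) 0 0 m (ω ∩ edgesIn (box (-m) 0 0 m)) ∧
      BT 0 m 0 m (ω ∩ edgesIn (box 0 m 0 m))) ∧
      (BT m (2 * m) 0 m (ω ∩ edgesIn (box m (2 * m) 0 m)) ∧
      LR (-m) (2 * m) 0 m (ω ∩ edgesIn (box (-m) (2 * m) 0 m)))) := by
    refine le_trans ?_ hall
    rw [mul_comm]
    exact mul_le_mul b1 b2 (by linarith) (perc_half_nonneg _ _)
  refine hfin.trans ?_
  unfold cn
  apply perc_half_mono
  rintro ω hω ⟨⟨hA0, hA1⟩, ⟨hV1, hV2⟩, ⟨hV3, hH⟩⟩
  obtain ⟨y, y', l1, l2, l3, l4, hH⟩ := hH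
  obtain ⟨p1, p1', i1, i2, i3, i4, hV1⟩ := hV1
  obtain ⟨p2, p2', j1, j2, j3, j4, hV2⟩ := hV2
  obtain ⟨p3, p3', k1, k2, k3, k4, hV3⟩ := hV3
  have nD : ∀ {x0 x1 : ℤ}, box x0 x1 0 m ⊆ S → ∀ w ∈ box x0 x1 0 m, w ∉ S →
      ∀ w' : ℤ × ℤ, w.2 ≤ w'.2 → w'.2 ≤ m → w'.1 = w.1 → w' ∉ S :=
    fun hsub w hw hw' => absurd (hsub hw) hw'
  have rows : ∀ w ∈ box (-m : ℤ) (2 * m) 0 m, 0 ≤ w.2 ∧ w.2 ≤ m := by
    intro w hw; rw [mem_box] at hw; exact hw.2.2
  have hκ : ((-m : ℤ), y) ∈ box (-m : ℤ) (2 * m) 0 m := by rw [mem_box]; simp only; omega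
  have v1 := vcross (D := S) (nD sV1) hV1 (sV1 (by rw [mem_box]; simp only; omega))
    (by rw [mem_box]; simp only; omega) (by omega) sH hH hκ rows (by simp only; omega)
    (by simp only; omega)
  have v2 := vcross (D := S) (nD sV2) hV2 (sV2 (by rw [mem_box]; simp only; omega))
    (by rw [mem_box]; simp only; omega) (by omega) sH hH hκ rows (by simp only; omega)
    (by simp only; omega)
  have v3 := vcross (D := S) (nD sV3) hV3 (sV3 (by rw [mem_box]; simp only; omega))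
    (by rw [mem_box]; simp only; omega) (by omega) sH hH hκ rows (by simp only; omega)
    (by simp only; omega)
  have up : ∀ {T : Finset (ℤ × ℤ)} {a b : ℤ × ℤ}, Joined (ω ∩ edgesIn T) a b → Joined ω a b :=
    fun h => joined_mono inter_subset_left h
  have ballrows : ∀ u : ℤ × ℤ, u.2 = 0 → ∀ w ∈ S ∩ ball u m, 0 ≤ w.2 ∧ w.2 ≤ m := by
    intro u hu w hw
    rw [mem_inter, mem_ball, hmem, abs_le, abs_le] at hw
    omega
  have m0 : ∀ u : ℤ × ℤ, u ∈ S → u ∈ S ∩ ball u m := by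
    intro u hu
    rw [mem_inter, mem_ball]
    refine ⟨hu, ?_⟩
    simp
  have q0 : ((0, 0) : ℤ × ℤ) ∈ S := by rw [hmem]; simp only; omega
  have qm : (((m : ℤ), 0) : ℤ × ℤ) ∈ S := by rw [hmem]; simp only; omega
  -- the arm of the origin
  have g0 : Joined ω ((-m : ℤ), y) (0, 0) := by
    obtain ⟨w, w1, w2⟩ := hA0
    have hw : w ∈ S ∩ ball (0, 0) m := mem_of_joined inter_subset_right w2 (m0 _ q0)
    have hw' := hw
    rw [mem_inter, mem_ball, hmem] at hw'
    unfold AtDist at w1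
    simp only [sub_zero] at w1 hw'
    rcases w1 with w1 | w1
    · rcases (abs_eq (by omega)).1 w1 with w1 | w1
      · have := vcross (D := S) (nD sV2) hV2 (sV2 (by rw [mem_box]; simp only; omega))
          (by rw [mem_box]; simp only; omega) (by omega) inter_subset_left w2 (m0 _ q0)
          (ballrows (0, 0) rfl) (by simp only; omega) (by omega)
        exact joined_trans (joined_symm (up v2)) (up this)
      · have := vcross (D := S) (nD sV1) hV1 (sV1 (by rw [mem_box]; simp only; omega))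
          (by rw [mem_box]; simp only; omega) (by omega) inter_subset_left (joined_symm w2) hw
          (ballrows (0, 0) rfl) (by omega) (by simp only; omega)
        exact joined_trans (joined_symm (up v1)) (joined_trans (up this) (joined_symm (up w2)))
    · have w3 : w.2 = m := by
        rw [abs_of_nonneg (by omega)] at w1
        exact w1
      have := hcross (D := S) (fun v hv hv' => absurd (sH hv) hv') hH (sH hκ) hκ
        inter_subset_left (joined_symm w2) hw
        (by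
          intro v hv
          rw [mem_inter, mem_ball, abs_le] at hv
          simp only [sub_zero] at hv
          omega) (by simp only; omega) (by omega) (by simp only; omega)
      exact joined_trans (up this) (joined_symm (up w2))
  -- the arm of the point `(m, 0)`
  have gm : Joined ω ((-m : ℤ), y) ((m : ℤ), 0) := by
    obtain ⟨w, w1, w2⟩ := hA1
    have hw : w ∈ S ∩ ball ((m : ℤ), 0) m := mem_of_joined inter_subset_right w2 (m0 _ qm)
    have hw' := hw
    rw [mem_inter, mem_ball, hmem] at hw'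
    unfold AtDist at w1
    simp only [sub_zero] at w1 hw'
    rcases w1 with w1 | w1
    · rcases (abs_eq (by omega)).1 w1 with w1 | w1
      · have := vcross (D := S) (nD sV3) hV3 (sV3 (by rw [mem_box]; simp only; omega))
          (by rw [mem_box]; simp only; omega) (by omega) inter_subset_left w2 (m0 _ qm)
          (ballrows ((m : ℤ), 0) rfl) (by simp only; omega) (by omega)
        exact joined_trans (joined_symm (up v3)) (up this)
      · have := vcross (D := S) (nD sV2) hV2 (sV2 (by rw [mem_box]; simp only; omega))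
          (by rw [mem_box]; simp only; omega) (by omega) inter_subset_left (joined_symm w2) hw
          (ballrows ((m : ℤ), 0) rfl) (by omega) (by simp only; omega)
        exact joined_trans (joined_symm (up v2)) (joined_trans (up this) (joined_symm (up w2)))
    · have w3 : w.2 = m := by
        rw [abs_of_nonneg (by omega)] at w1
        exact w1
      have := hcross (D := S) (fun v hv hv' => absurd (sH hv) hv') hH (sH hκ) hκ
        inter_subset_left (joined_symm w2) hw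
        (by
          intro v hv
          rw [mem_inter, mem_ball, abs_le] at hv
          simp only at hv
          omega) (by simp only; omega) (by omega) (by simp only; omega)
      exact joined_trans (up this) (joined_symm (up w2))
  exact joined_trans (joined_symm g0) gm

lemma sum_Icc_le {f : ℤ → ℝ} {u v : ℤ} {B r : ℝ} (hB : 0 ≤ B) (hf : ∀ x, u ≤ x → x ≤ v → f x ≤ B)
    (hr : ((v + 1 - u : ℤ) : ℝ) ≤ r) (huv : u ≤ v + 1) : ∑ x ∈ Finset.Icc u v, f x ≤ r * B := by
  calc ∑ x ∈ Finset.Icc u v, f x ≤ ∑ _x ∈ Finset.Icc u v, B := by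
        apply Finset.sum_le_sum
        intro x hx
        rw [Finset.mem_Icc] at hx
        exact hf x hx.1 hx.2
    _ = ((v + 1 - u).toNat : ℝ) * B := by
        rw [Finset.sum_const, Int.card_Icc, nsmul_eq_mul]
    _ ≤ r * B := by
        apply mul_le_mul_of_nonneg_right _ hB
        refine le_trans (le_of_eq ?_) hr
        have : ((v + 1 - u).toNat : ℤ) = v + 1 - u := by omega
        exact_mod_cast this

/-- (D1): the sum of the squares -/
theorem sum_sq_le (hF : FlatRule) {c : ℝ} (hc : 0 < c)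
    (hc1 : ∀ n : ℕ, 1 ≤ n → c ≤ pLR (3 * n) n) {m : ℕ} (hm : 1 ≤ m) :
    ∑ x ∈ Finset.Icc 1 m, pH x ^ 2 ≤ 88 / c * (m * pH m ^ 2) := by
  obtain ⟨n, hn⟩ : ∃ n : ℤ, n = 2 * m + 1 := ⟨_, rfl⟩
  have hF' := hF n n (by omega) (by omega)
  have hmR : (1 : ℝ) ≤ m := by exact_mod_cast hm
  have up1 : ∑ x ∈ Finset.Icc (-n) n, cn (box (-n) n 0 n) (x, n) ≤ (4 * m + 3) * pH m ^ 2 := by
    apply sum_Icc_le (sq_nonneg _)
    · intro x h1 h2
      exact flat_upper (k := m) (by omega) (by rw [mem_box]; simp only; omega) (Or.inl rfl)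
    · rw [hn]; push_cast; linarith
    · omega
  have up2 : ∑ y ∈ Finset.Icc 0 n, cn (box (-n) n 0 n) (n, y) ≤ (2 * m + 2) * pH m ^ 2 := by
    apply sum_Icc_le (sq_nonneg _)
    · intro x h1 h2
      exact flat_upper (k := m) (by omega) (by rw [mem_box]; simp only; omega) (Or.inr rfl)
    · rw [hn]; push_cast; linarith
    · omega
  have low : c / 8 * ∑ x ∈ Finset.Icc 1 m, pH x ^ 2 ≤ ∑ x ∈ Icc 1 n, cn (box (-n) n 0 n) (x, 0) := by
    rw [Finset.mul_sum]
    calc ∑ x ∈ Finset.Icc 1 m, c / 8 * pH x ^ 2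
        ≤ ∑ x ∈ Finset.Icc 1 m, cn (box (-n) n 0 n) ((x : ℤ), 0) := by
          apply Finset.sum_le_sum
          intro x hx
          rw [Finset.mem_Icc] at hx
          exact flat_lower hx.1 (by omega) hc.le (hc1 x hx.1)
      _ = ∑ x ∈ (Finset.Icc 1 m).map Nat.castEmbedding, cn (box (-n) n 0 n) (x, 0) := by
          rw [Finset.sum_map]
          rfl
      _ ≤ _ := by
          apply Finset.sum_le_sum_of_subset_of_nonneg
          · intro x hx
            rw [Finset.mem_map] at hx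
            obtain ⟨y, hy, rfl⟩ := hx
            rw [Finset.mem_Icc] at hy ⊢
            simp only [Nat.castEmbedding_apply]
            omega
          · intro x _ _
            exact cn_nonneg _ _
  have h1 : c / 8 * ∑ x ∈ Finset.Icc 1 m, pH x ^ 2 ≤ (6 * m + 5) * pH m ^ 2 := by linarith
  have h2 : (6 * m + 5) * pH m ^ 2 ≤ 11 * (m * pH m ^ 2) := by
    nlinarith [sq_nonneg (pH m)]
  have h3 : c * ∑ x ∈ Finset.Icc 1 m, pH x ^ 2 ≤ 88 * (m * pH m ^ 2) := by linarith
  rw [div_mul_eq_mul_div, le_div_iff₀ hc]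
  linarith

/-- discrete Gronwall inequality -/
theorem gronwall {a : ℕ → ℝ} {K : ℝ} (hK : 1 ≤ K)
    (h0 : ∀ n, 1 ≤ n → 0 < a n) (h : ∀ m, 1 ≤ m → ∑ x ∈ Finset.Icc 1 m, a x ≤ K * (m * a m)) :
    ∀ m : ℕ, 1 ≤ m → a 1 * (m : ℝ) ^ (1 / (2 * K)) ≤ ∑ x ∈ Finset.Icc 1 m, a x := by
  intro m hm
  induction m, hm using Nat.le_induction with
  | base => simp
  | succ m hm ih =>
    have hm1 : (1 : ℝ) ≤ m := by exact_mod_cast hm
    set A := ∑ x ∈ Finset.Icc 1 m, a x with hA
    have hS : ∑ x ∈ Finset.Icc 1 (m + 1), a x = A + a (m + 1) := by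
      rw [Finset.sum_Icc_succ_top (by omega)]
    have h1 := h (m + 1) (by omega)
    rw [hS] at h1 ⊢
    push_cast at h1 ⊢
    have ha := h0 (m + 1) (by omega)
    have ha1 := h0 1 le_rfl
    have hKpos : 0 < K := by linarith
    -- `a (m+1) ≥ A / (K (m+1))`
    have h2 : A ≤ K * ((m + 1) * a (m + 1)) := by linarith
    have hb : 1 / (2 * K) ≤ 1 := by
      rw [div_le_one (by positivity)]; linarith
    -- Bernoulli
    have hB : ((m : ℝ) + 1) ^ (1 / (2 * K)) ≤ (m : ℝ) ^ (1 / (2 * K)) * (1 + 1 / (K * (m + 1))) := by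
      have e1 : (m : ℝ) + 1 = m * (1 + 1 / m) := by field_simp
      rw [e1, Real.mul_rpow (by positivity) (by positivity)]
      apply mul_le_mul_of_nonneg_left _ (by positivity)
      have h3 := rpow_one_add_le_one_add_mul_self (s := 1 / (m : ℝ)) (p := 1 / (2 * K))
        (by have : (0 : ℝ) ≤ 1 / m := by positivity
            linarith) (by positivity) hb
      refine h3.trans ?_
      rw [← e1]
      have : 1 / (2 * K) * (1 / (m : ℝ)) ≤ 1 / (K * (m + 1)) := by
        rw [div_mul_div_comm, one_mul, div_le_div_iff₀ (by positivity) (by positivity)]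
        nlinarith
      linarith
    have hA0 : 0 ≤ A := Finset.sum_nonneg (fun x hx => (h0 x (Finset.mem_Icc.1 hx).1).le)
    calc a 1 * ((m : ℝ) + 1) ^ (1 / (2 * K))
        ≤ a 1 * ((m : ℝ) ^ (1 / (2 * K)) * (1 + 1 / (K * (m + 1)))) :=
          mul_le_mul_of_nonneg_left hB ha1.le
      _ = (a 1 * (m : ℝ) ^ (1 / (2 * K))) * (1 + 1 / (K * (m + 1))) := by ring
      _ ≤ A * (1 + 1 / (K * (m + 1))) := mul_le_mul_of_nonneg_right ih (by positivity)
      _ = A + A / (K * (m + 1)) := by ring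
      _ ≤ A + a (m + 1) := by
          have : A / (K * (m + 1)) ≤ a (m + 1) := by
            rw [div_le_iff₀ (by positivity)]
            linarith
          linarith

lemma pH_pos {m : ℕ} (hm : 1 ≤ m) (hR : ∃ c : ℝ, 0 < c ∧ ∀ n : ℕ, 1 ≤ n → c ≤ n * piQ n * piH 0 1 n) :
    0 < pH m := by
  obtain ⟨c, hc, h⟩ := hR
  have h1 := h m hm
  rcases (pH_nonneg m).eq_or_lt with h2 | h2
  · exfalso
    unfold pH at h2
    rw [← h2, mul_zero] at h1
    linarith
  · exact h2

/-- (D2): **the half-plane one-arm exponent is smaller than `1/2` and the quarter-plane one is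
larger than `1/2`.** -/
theorem exponents (hR : SumRule) (hC : CrossBound) (hF : FlatRule) :
    ∃ ε c C : ℝ, 0 < ε ∧ 0 < c ∧ 0 < C ∧ ∀ n : ℕ, 1 ≤ n →
      c * (n : ℝ) ^ (-(1 / 2 : ℝ) + ε) ≤ piH 0 1 n ∧ piQ n ≤ C * (n : ℝ) ^ (-(1 / 2 : ℝ) - ε) := by
  obtain ⟨c1, C1, hc1, hC1, hprod⟩ := arm_product hR hC
  obtain ⟨c, hc, hRSW⟩ := hC 3
  have hRSW' : ∀ n : ℕ, 1 ≤ n → c ≤ pLR (3 * n) n := fun n hn => by exact_mod_cast hRSW n hn
  have hcle : c ≤ 1 := (hRSW 1 le_rfl).trans (perc_half_le_one _ _)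
  set K : ℝ := 88 / c with hK
  have hK1 : 1 ≤ K := by
    rw [hK, le_div_iff₀ hc]; linarith
  have hKpos : 0 < K := by linarith
  have hpos : ∀ n : ℕ, 1 ≤ n → 0 < pH n := fun n hn => pH_pos hn
    ⟨c1, hc1, fun k hk => (hprod 0 1 (Or.inr one_ne_zero) k hk).1⟩
  have hG := gronwall (a := fun n => pH n ^ 2) hK1 (fun n hn => pow_pos (hpos n hn) 2)
    (fun m hm => sum_sq_le hF hc hRSW' hm)
  set δ : ℝ := 1 / (2 * K) with hδ
  have hδ0 : 0 < δ := by positivity
  -- lower bound for `pH`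
  set q : ℝ := pH 1 / Real.sqrt K with hq
  have hq0 : 0 < q := div_pos (hpos 1 le_rfl) (Real.sqrt_pos.2 hKpos)
  have hlow : ∀ n : ℕ, 1 ≤ n → q * (n : ℝ) ^ (-(1 / 2 : ℝ) + δ / 2) ≤ pH n := by
    intro n hn
    have hn0 : (0 : ℝ) < n := by exact_mod_cast hn
    have h1 := (hG n hn).trans (sum_sq_le hF hc hRSW' hn)
    have h2 : (q * (n : ℝ) ^ (-(1 / 2 : ℝ) + δ / 2)) ^ 2 ≤ pH n ^ 2 := by
      have e1 : (q * (n : ℝ) ^ (-(1 / 2 : ℝ) + δ / 2)) ^ 2 = pH 1 ^ 2 / K * ((n : ℝ) ^ δ / n) := by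
        rw [mul_pow, hq, div_pow, Real.sq_sqrt hKpos.le, ← Real.rpow_natCast ((n : ℝ) ^ _) 2,
          ← Real.rpow_mul hn0.le]
        congr 1
        rw [show (-(1 / 2 : ℝ) + δ / 2) * ((2 : ℕ) : ℝ) = δ - 1 by push_cast; ring,
          Real.rpow_sub_one hn0.ne']
      rw [e1]
      have h3 : pH 1 ^ 2 * (n : ℝ) ^ δ ≤ K * (n * pH n ^ 2) := h1
      rw [div_mul_div_comm, div_le_iff₀ (by positivity)]
      linarith
    exact le_of_sq_le_sq h2 (hpos n hn).le
  refine ⟨δ / 2, q, C1 / q, by positivity, hq0, by positivity, fun n hn => ⟨hlow n hn, ?_⟩⟩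
  have hn0 : (0 : ℝ) < n := by exact_mod_cast hn
  have h1 := (hprod 0 1 (Or.inr one_ne_zero) n hn).2
  have h2 := hlow n hn
  have h3 : 0 < (n : ℝ) ^ (-(1 / 2 : ℝ) + δ / 2) := Real.rpow_pos_of_pos hn0 _
  have h4 : n * piQ n * (q * (n : ℝ) ^ (-(1 / 2 : ℝ) + δ / 2)) ≤ C1 := by
    refine le_trans ?_ h1
    exact mul_le_mul_of_nonneg_left h2 (mul_nonneg hn0.le (piQ_nonneg n))
  have e2 : (n : ℝ) ^ (-(1 / 2 : ℝ) - δ / 2) = ((n : ℝ) * (n : ℝ) ^ (-(1 / 2 : ℝ) + δ / 2))⁻¹ := by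
    rw [← Real.rpow_one_add' hn0.le (by intro h; linarith), ← Real.rpow_neg hn0.le]
    congr 1
    ring
  rw [e2, ← div_eq_mul_inv, div_div, le_div_iff₀ (by positivity)]
  linarith

end H47Perc
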