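import Pool.Agent.Helper69.RSW.HalfExp

/-!
The diagonal quadrant `|y| ≤ x`: the product of its one-arm probability and the half-plane
one-arm probability is of order `1/n` (by helper69).
-/

set_option autoImplicit false

namespace H47Perc
open Finset
open Pool.Agent.Helper69.RSW (P P_mono P_map P_restrict P_congr Dep Up harris P_nonneg)

open Classical in
/-- the truncated diagonal quadrant `|y| ≤ x ≤ N` -/
noncomputable def dq (N : ℤ) : Finset (ℤ × ℤ) := (box 0 N (-N) N).filter (fun z => |z.2| ≤ z.1)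

lemma mem_dq {N : ℤ} {z : ℤ × ℤ} : z ∈ dq N ↔ |z.2| ≤ z.1 ∧ z.1 ≤ N := by
  unfold dq
  rw [mem_filter, mem_box]
  constructor
  · rintro ⟨h1, h2⟩
    exact ⟨h2, h1.2.1⟩
  · rintro ⟨h1, h2⟩
    refine ⟨?_, h1⟩
    have h3 := abs_nonneg z.2
    rw [abs_le] at h1
    omega

/-- the one-arm probability of the diagonal quadrant -/
noncomputable def piQd (n : ℕ) : ℝ :=
  perc half (dq n) (fun ω => ∃ z : ℤ × ℤ, z.1 = n ∧ Joined ω (0, 0) z)

/-- the exact rule for the diagonal quadrant -/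
def DiagRule : Prop := ∀ N : ℤ, 0 ≤ N → ∑ y ∈ Finset.Icc (-N) N, cn (dq N) (N, y) = 1

lemma dq_inter {n N : ℤ} (h : n ≤ N) : dq N ∩ ball (0, 0) n = dq n := by
  ext z
  rw [mem_inter, mem_ball, mem_dq, mem_dq]
  simp only [sub_zero]
  constructor
  · rintro ⟨⟨h1, h2⟩, h3, h4⟩
    have := le_abs_self z.1
    omega
  · rintro ⟨h1, h2⟩
    have h3 := abs_nonneg z.2
    have h4 : |z.1| = z.1 := abs_of_nonneg (by omega)
    omega

lemma piQd_eq {n : ℕ} {N : ℤ} (h : (n : ℤ) ≤ N) : piQd n = armP (dq N) (0, 0) n := by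
  rw [← perc_arm (T := dq n) (0, 0) n (by rw [dq_inter h])]
  unfold piQd
  have key : ∀ z ∈ dq (n : ℤ), AtDist (0, 0) n z ↔ z.1 = n := by
    intro z hz
    rw [mem_dq] at hz
    have h3 := abs_nonneg z.2
    have h4 : |z.1| = z.1 := abs_of_nonneg (by omega)
    unfold AtDist
    simp only [sub_zero]
    omega
  have h0 : ((0, 0) : ℤ × ℤ) ∈ dq (n : ℤ) := by rw [mem_dq]; simp
  apply le_antisymm
  · apply perc_half_mono
    rintro ω hω ⟨z, h1, h2⟩
    refine ⟨z, (key z (mem_of_joined hω h2 h0)).2 h1, ?_⟩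
    rwa [dq_inter h, inter_eq_left.2 hω]
  · apply perc_half_mono
    rintro ω hω ⟨z, h1, h2⟩
    rw [dq_inter h, inter_eq_left.2 hω] at h2
    exact ⟨z, (key z (mem_of_joined hω h2 h0)).1 h1, h2⟩

lemma piQd_anti {n n' : ℕ} (h : n ≤ n') : piQd n' ≤ piQd n := by
  rw [piQd_eq (n := n') (N := n') le_rfl, piQd_eq (n := n) (N := n') (by omega)]
  exact armP_anti (by omega) (by omega)

lemma piQd_nonneg (n : ℕ) : 0 ≤ piQd n := perc_half_nonneg _ _
lemma piQd_le_one (n : ℕ) : piQd n ≤ 1 := perc_half_le_one _ _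

/-- lower bound for the product -/
theorem diag_lower (hD : DiagRule) {k : ℕ} (hk : 1 ≤ k) : 1 / 7 ≤ k * piQd k * pH k := by
  obtain ⟨N, hN⟩ : ∃ N : ℤ, N = 2 * k + 1 := ⟨_, rfl⟩
  have h1 := hD N (by omega)
  have h2 : ∑ y ∈ Finset.Icc (-N) N, cn (dq N) (N, y) ≤ (4 * k + 3) * (piQd k * pH k) := by
    apply sum_Icc_le (mul_nonneg (piQd_nonneg k) (pH_nonneg k))
    · intro y _ _
      have h3 : cn (dq N) (N, y) ≤ armP (dq N) (0, 0) k * armP (dq N) (N, y) k := by
        apply perc_joined_le (by omega)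
        left
        simp only [sub_zero]
        rw [abs_of_nonneg (by omega)]
        omega
      have h4 : armP (dq N) (N, y) k ≤ pH k := by
        rw [← pH_right]
        apply armP_le_piH
        intro w hw
        rw [mem_dq] at hw
        have : (w.1 : ℝ) ≤ N := by exact_mod_cast hw.2
        simp only
        linarith
      rw [piQd_eq (n := k) (N := N) (by omega)]
      exact h3.trans (mul_le_mul_of_nonneg_left h4 (armP_nonneg _ _ _))
    · rw [hN]; push_cast; linarith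
    · omega
  have hkR : (1 : ℝ) ≤ k := by exact_mod_cast hk
  have h5 : 0 ≤ piQd k * pH k := mul_nonneg (piQd_nonneg k) (pH_nonneg k)
  nlinarith

/-- a full vertical barrier meets all horizontal connections -/
lemma barrier_meet {S : Finset (ℤ × ℤ)} {H x1 x2 : ℤ} {ω : Finset (Sym2 (ℤ × ℤ))}
    (hω : ω ⊆ edgesIn S) (hH : 0 < H) (hSH : ∀ z ∈ S, -H ≤ z.2 ∧ z.2 ≤ H) {κ u v : ℤ × ℤ}
    (hu : u.2 = H) (hv : v.2 = -H) (p : lattice.Walk u v)
    (hp : ∀ t ∈ p.support, (x1 ≤ t.1 ∧ t.1 ≤ x2) ∧ (t ∈ S → Joined ω κ t)) {a b : ℤ × ℤ}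
    (ha : a ∈ S) (hj : Joined ω a b) (h1 : a.1 ≤ x1) (h2 : x2 ≤ b.1) : Joined ω κ a := by
  obtain ⟨q, hq, hsq⟩ := joined_walk_in hω ha hj
  obtain ⟨t, ht1, ht2⟩ := crossing_walks p q (by omega)
    (fun w hw => by have := hSH w (hsq w hw); omega)
    (fun w hw => by have := (hp w hw).1; omega)
    (fun w hw => by have := (hp w hw).1; omega)
  have h3 := (hp t ht1).2 (hsq t ht2)
  have h4 : Joined ω a t := walk_joined (q.takeUntil t ht2)
    (fun e he => hq e (q.edges_takeUntil_subset_edges ht2 he))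
  exact joined_trans h3 (joined_symm h4)

/-- straight walk downwards -/
lemma down_walk' {u v : ℤ × ℤ} (h1 : u.1 = v.1) (h2 : v.2 ≤ u.2) : ∃ p : lattice.Walk u v,
    ∀ w ∈ p.support, w.1 = v.1 ∧ v.2 ≤ w.2 ∧ w.2 ≤ u.2 := by
  obtain ⟨x, y⟩ := v
  obtain ⟨x', y'⟩ := u
  simp only at h1 h2
  subst h1
  obtain ⟨k, hk⟩ : ∃ k : ℕ, y' = y + k := ⟨(y' - y).toNat, by omega⟩
  subst hk
  obtain ⟨p, hp⟩ := vline x' y k
  refine ⟨p.reverse, fun w hw => ?_⟩
  rw [SimpleGraph.Walk.support_reverse, List.mem_reverse] at hw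
  exact hp w hw

/-- upper half of the barrier -/
def TU (S : Finset (ℤ × ℤ)) (x1 x2 r H : ℤ) (ω : Finset (Sym2 (ℤ × ℤ))) : Prop :=
  ∃ (x : ℤ) (w : ℤ × ℤ), x1 ≤ x ∧ x ≤ x2 ∧ w ∈ S ∧ (w.1, w.2 + 1) ∉ S ∧
    Joined (ω ∩ edgesIn (S ∩ box x1 x2 (-r) H)) (x, -r) w

/-- lower half of the barrier -/
def TDn (S : Finset (ℤ × ℤ)) (x1 x2 r H : ℤ) (ω : Finset (Sym2 (ℤ × ℤ))) : Prop :=
  ∃ (x : ℤ) (w : ℤ × ℤ), x1 ≤ x ∧ x ≤ x2 ∧ w ∈ S ∧ (w.1, w.2 - 1) ∉ S ∧
    Joined (ω ∩ edgesIn (S ∩ box x1 x2 (-H) r)) (x, r) w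

lemma up_TU (S : Finset (ℤ × ℤ)) (x1 x2 r H : ℤ) : Up (TU S x1 x2 r H) := by
  rintro ω ω' h ⟨x, w, h1, h2, h3, h4, h5⟩
  exact ⟨x, w, h1, h2, h3, h4, joined_mono (inter_subset_inter_right h) h5⟩

lemma up_TDn (S : Finset (ℤ × ℤ)) (x1 x2 r H : ℤ) : Up (TDn S x1 x2 r H) := by
  rintro ω ω' h ⟨x, w, h1, h2, h3, h4, h5⟩
  exact ⟨x, w, h1, h2, h3, h4, joined_mono (inter_subset_inter_right h) h5⟩

/-- the barrier -/
lemma exists_barrier {n : ℕ} (hn : 1 ≤ n) {ω : Finset (Sym2 (ℤ × ℤ))}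
    (hU : TU (dq (8 * n)) (5 * n) (6 * n) n (6 * n + 1) ω)
    (hD : TDn (dq (8 * n)) (5 * n) (6 * n) n (6 * n + 1) ω)
    (hs : LR (5 * n) (6 * n) (-n) n (ω ∩ edgesIn (box (5 * n) (6 * n) (-n) n))) :
    ∃ (κ u v : ℤ × ℤ) (p : lattice.Walk u v), u.2 = 8 * n + 1 ∧ v.2 = -(8 * n + 1) ∧
      ∀ t ∈ p.support, (5 * (n : ℤ) ≤ t.1 ∧ t.1 ≤ 6 * n) ∧ (t ∈ dq (8 * n) → Joined ω κ t) := by
  classical
  obtain ⟨a, a', a1, a2, a3, a4, hs⟩ := hs
  obtain ⟨x, w, b1, b2, b3, b4, hU⟩ := hU
  obtain ⟨x', w', c1, c2, c3, c4, hD⟩ := hD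
  have up : ∀ {T : Finset (ℤ × ℤ)} {a b : ℤ × ℤ}, Joined (ω ∩ edgesIn T) a b → Joined ω a b :=
    fun h => joined_mono inter_subset_left h
  have hxS : ((x, -(n : ℤ)) : ℤ × ℤ) ∈ dq (8 * n) ∩ box (5 * n) (6 * n) (-n) (6 * n + 1) := by
    rw [mem_inter, mem_dq, mem_box]
    simp only [abs_neg, Nat.abs_cast]
    omega
  have hxS' : ((x', (n : ℤ)) : ℤ × ℤ) ∈ dq (8 * n) ∩ box (5 * n) (6 * n) (-(6 * n + 1)) n := by
    rw [mem_inter, mem_dq, mem_box]
    simp only [Nat.abs_cast]
    omega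
  have hwS := mem_of_joined inter_subset_right hU hxS
  have hwS' := mem_of_joined inter_subset_right hD hxS'
  rw [mem_inter, mem_dq, mem_box, abs_le] at hwS
  rw [mem_inter, mem_dq, mem_box, abs_le] at hwS'
  have hw2 : w.2 = w.1 := by
    by_contra hne
    apply b4
    rw [mem_dq, abs_le]
    simp only
    omega
  have hw2' : w'.2 = -w'.1 := by
    by_contra hne
    apply c4
    rw [mem_dq, abs_le]
    simp only
    omega
  -- the walks
  obtain ⟨W, hW, hWs⟩ := joined_walk_in inter_subset_right hxS hU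
  obtain ⟨W', hW', hWs'⟩ := joined_walk_in inter_subset_right hxS' hD
  obtain ⟨q, hq, hqs⟩ := joined_walk_in (S := box (5 * n) (6 * n) (-n) n) inter_subset_right
    (by rw [mem_box]; simp only; omega) hs
  obtain ⟨r1, hr1⟩ := down_walk' (u := (w.1, 8 * (n : ℤ) + 1)) (v := w) rfl
    (by simp only; omega)
  obtain ⟨r2, hr2⟩ := down_walk' (u := w') (v := (w'.1, -(8 * (n : ℤ) + 1))) rfl
    (by simp only; omega)
  have rr : ∀ {u v : ℤ × ℤ} (p : lattice.Walk u v) (t : ℤ × ℤ),
      t ∈ p.reverse.support ↔ t ∈ p.support := by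
    intro u v p t
    rw [SimpleGraph.Walk.support_reverse, List.mem_reverse]
  -- first crossing
  obtain ⟨e1, f1, f2⟩ := crossing_walks (r1.append W.reverse) q (by simp only; omega)
    (fun v hv => by
      have := hqs v hv
      rw [mem_box] at this
      simp only
      omega)
    (fun v hv => by
      rw [SimpleGraph.Walk.mem_support_append_iff, rr] at hv
      simp only
      rcases hv with hv | hv
      · have := hr1 v hv
        omega
      · have := hWs v hv
        rw [mem_inter, mem_box] at this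
        omega)
    (fun v hv => by
      rw [SimpleGraph.Walk.mem_support_append_iff, rr] at hv
      simp only
      rcases hv with hv | hv
      · have := hr1 v hv
        omega
      · have := hWs v hv
        rw [mem_inter, mem_box] at this
        omega)
  have g1 : e1 ∈ W.support := by
    rw [SimpleGraph.Walk.mem_support_append_iff, rr] at f1
    rcases f1 with f1 | f1
    · exfalso
      have h1 := hr1 e1 f1
      have h2 := hqs e1 f2
      rw [mem_box] at h2
      omega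
    · exact f1
  -- second crossing
  obtain ⟨e2, f3, f4⟩ := crossing_walks (W'.append r2) q (by simp only; omega)
    (fun v hv => by
      have := hqs v hv
      rw [mem_box] at this
      simp only
      omega)
    (fun v hv => by
      rw [SimpleGraph.Walk.mem_support_append_iff] at hv
      simp only
      rcases hv with hv | hv
      · have := hWs' v hv
        rw [mem_inter, mem_box] at this
        omega
      · have := hr2 v hv
        simp only at this
        omega)
    (fun v hv => by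
      rw [SimpleGraph.Walk.mem_support_append_iff] at hv
      simp only
      rcases hv with hv | hv
      · have := hWs' v hv
        rw [mem_inter, mem_box] at this
        omega
      · have := hr2 v hv
        simp only at this
        omega)
  have g2 : e2 ∈ W'.support := by
    rw [SimpleGraph.Walk.mem_support_append_iff] at f3
    rcases f3 with f3 | f3
    · exact f3
    · exfalso
      have h1 := hr2 e2 f3
      have h2 := hqs e2 f4
      rw [mem_box] at h2
      simp only at h1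
      omega
  -- connections
  have jq : ∀ t ∈ q.support, Joined ω (5 * (n : ℤ), a) t := fun t ht => up (walk_joined
    (q.takeUntil t ht) (fun e he => hq e (q.edges_takeUntil_subset_edges ht he)))
  have jW : ∀ t ∈ W.support, Joined ω (x, -(n : ℤ)) t := fun t ht => up (walk_joined
    (W.takeUntil t ht) (fun e he => hW e (W.edges_takeUntil_subset_edges ht he)))
  have jW' : ∀ t ∈ W'.support, Joined ω (x', (n : ℤ)) t := fun t ht => up (walk_joined
    (W'.takeUntil t ht) (fun e he => hW' e (W'.edges_takeUntil_subset_edges ht he)))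
  have k1 : ∀ t ∈ W.support, Joined ω (5 * (n : ℤ), a) t := fun t ht =>
    joined_trans (jq e1 f2) (joined_trans (joined_symm (jW e1 g1)) (jW t ht))
  have k2 : ∀ t ∈ W'.support, Joined ω (5 * (n : ℤ), a) t := fun t ht =>
    joined_trans (jq e2 f4) (joined_trans (joined_symm (jW' e2 g2)) (jW' t ht))
  refine ⟨(5 * (n : ℤ), a), (w.1, 8 * (n : ℤ) + 1), (w'.1, -(8 * (n : ℤ) + 1)),
    r1.append ((W.dropUntil e1 g1).reverse.append ((q.takeUntil e1 f2).reverse.append
      ((q.takeUntil e2 f4).append ((W'.dropUntil e2 g2).append r2)))), rfl, rfl, ?_⟩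
  intro t ht
  simp only [SimpleGraph.Walk.mem_support_append_iff, rr] at ht
  rcases ht with ht | ht | ht | ht | ht | ht
  · have h1 := hr1 t ht
    refine ⟨by omega, fun h2 => ?_⟩
    rw [mem_dq, abs_le] at h2
    have h3 : t = w := by
      ext
      · exact h1.1
      · omega
    rw [h3]
    exact k1 w W.end_mem_support
  · have h0 := W.support_dropUntil_subset_support g1 ht
    have h1 := hWs t h0
    rw [mem_inter, mem_box] at h1
    exact ⟨by omega, fun _ => k1 t h0⟩
  · have h0 := q.support_takeUntil_subset_support f2 ht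
    have h1 := hqs t h0
    rw [mem_box] at h1
    exact ⟨by omega, fun _ => jq t h0⟩
  · have h0 := q.support_takeUntil_subset_support f4 ht
    have h1 := hqs t h0
    rw [mem_box] at h1
    exact ⟨by omega, fun _ => jq t h0⟩
  · have h0 := W'.support_dropUntil_subset_support g2 ht
    have h1 := hWs' t h0
    rw [mem_inter, mem_box] at h1
    exact ⟨by omega, fun _ => k2 t h0⟩
  · have h1 := hr2 t ht
    simp only at h1
    refine ⟨by omega, fun h2 => ?_⟩
    rw [mem_dq, abs_le] at h2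
    have h3 : t = w' := by
      ext
      · exact h1.1
      · omega
    rw [h3]
    exact k2 w' W'.end_mem_support

/-- probability of the upper half of the barrier -/
lemma TU_prob {n : ℕ} (hn : 1 ≤ n) :
    pLR (7 * n + 1) n ≤ perc half (dq (8 * n)) (TU (dq (8 * n)) (5 * n) (6 * n) n (6 * n + 1)) := by
  classical
  set S := dq (8 * n) with hS
  set K := box (5 * n) (6 * n) (-n) (6 * n + 1) with hK
  have e1 : pLR (7 * n + 1) n = perc half K (BT (5 * n) (6 * n) (-n) (6 * n + 1)) := by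
    rw [hK, perc_BT]
    have h1 : (6 * (n : ℤ) + 1 - -n) = 7 * n + 1 := by ring
    have h2 : (6 * (n : ℤ) - 5 * n) = n := by ring
    rw [h1, h2]
  rw [e1, ← perc_restrict (S := S ∪ K) (T := K) subset_union_right]
  have e2 : perc half S (TU S (5 * n) (6 * n) n (6 * n + 1)) = perc half (S ∪ K)
      (fun ω => TU S (5 * n) (6 * n) n (6 * n + 1) (ω ∩ edgesIn S)) :=
    (perc_restrict subset_union_left _).symm
  rw [e2]
  apply perc_half_mono
  rintro ω hω ⟨x, x', h1, h2, h3, h4, h5⟩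
  obtain ⟨w, w', a1, a2, a3, a4, a5, a6⟩ := joined_exit (S := K)
    (T := S ∩ K) inter_subset_right h5
    (by
      rw [mem_inter, hS, hK, mem_dq, mem_box]
      simp only [abs_neg, Nat.abs_cast]
      omega)
    (by
      rw [mem_inter, hS, mem_dq, abs_le]
      simp only
      omega)
  rw [mem_inter] at a1 a2
  have a7 : w' ∉ S := fun h => a2 ⟨h, a3⟩
  refine ⟨x, w, h1, h2, a1.1, ?_, joined_mono ?_ a6⟩
  · rw [hS, mem_dq, abs_le] at a7 ⊢
    rw [hS, hK, mem_dq, abs_le, mem_box] at a1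
    rw [hK, mem_box] at a3
    simp only
    rcases a4 with ⟨b1, b2⟩ | ⟨b1, b2⟩
    · rw [abs_eq (by norm_num)] at b2
      omega
    · rw [abs_eq (by norm_num)] at b2
      omega
  · intro e he
    rw [mem_inter, mem_inter] at he
    rw [mem_inter, mem_inter]
    exact ⟨⟨he.1.1, edgesIn_mono inter_subset_left he.2⟩, he.2⟩

/-- probability of the lower half of the barrier -/
lemma TDn_prob {n : ℕ} (hn : 1 ≤ n) :
    pLR (7 * n + 1) n ≤ perc half (dq (8 * n)) (TDn (dq (8 * n)) (5 * n) (6 * n) n (6 * n + 1)) := by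
  classical
  set S := dq (8 * n) with hS
  set K := box (5 * n) (6 * n) (-(6 * n + 1)) n with hK
  have e1 : pLR (7 * n + 1) n = perc half K (BT (5 * n) (6 * n) (-(6 * n + 1)) n) := by
    rw [hK, perc_BT]
    have h1 : ((n : ℤ) - -(6 * n + 1)) = 7 * n + 1 := by ring
    have h2 : (6 * (n : ℤ) - 5 * n) = n := by ring
    rw [h1, h2]
  rw [e1, ← perc_restrict (S := S ∪ K) (T := K) subset_union_right]
  have e2 : perc half S (TDn S (5 * n) (6 * n) n (6 * n + 1)) = perc half (S ∪ K)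
      (fun ω => TDn S (5 * n) (6 * n) n (6 * n + 1) (ω ∩ edgesIn S)) :=
    (perc_restrict subset_union_left _).symm
  rw [e2]
  apply perc_half_mono
  rintro ω hω ⟨x, x', h1, h2, h3, h4, h5⟩
  obtain ⟨w, w', a1, a2, a3, a4, a5, a6⟩ := joined_exit (S := K)
    (T := S ∩ K) inter_subset_right (joined_symm h5)
    (by
      rw [mem_inter, hS, hK, mem_dq, mem_box]
      simp only [Nat.abs_cast]
      omega)
    (by
      rw [mem_inter, hS, mem_dq, abs_le]
      simp only
      omega)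
  rw [mem_inter] at a1 a2
  have a7 : w' ∉ S := fun h => a2 ⟨h, a3⟩
  refine ⟨x', w, h3, h4, a1.1, ?_, joined_mono ?_ a6⟩
  · rw [hS, mem_dq, abs_le] at a7 ⊢
    rw [hS, hK, mem_dq, abs_le, mem_box] at a1
    rw [hK, mem_box] at a3
    simp only
    rcases a4 with ⟨b1, b2⟩ | ⟨b1, b2⟩
    · rw [abs_eq (by norm_num)] at b2
      omega
    · rw [abs_eq (by norm_num)] at b2
      omega
  · intro e he
    rw [mem_inter, mem_inter] at he
    rw [mem_inter, mem_inter]
    exact ⟨⟨he.1.1, edgesIn_mono inter_subset_left he.2⟩, he.2⟩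

/-- the gluing -/
theorem diag_glue {n : ℕ} (hn : 1 ≤ n) {y : ℤ} (hy : |y| ≤ n) {c : ℝ} (hc : 0 ≤ c)
    (hc1 : c ≤ pLR (8 * n) n) :
    c ^ 4 / 2 * (piQd (6 * n) * pH (3 * n)) ≤ cn (dq (8 * n)) (8 * n, y) := by
  classical
  set S := dq (8 * n) with hS
  rw [abs_le] at hy
  have hmem : ∀ w : ℤ × ℤ, w ∈ S ↔ (-w.1 ≤ w.2 ∧ w.2 ≤ w.1) ∧ w.1 ≤ 8 * n := fun w => by
    rw [hS, mem_dq, abs_le]
  have sT : box (5 * n) (8 * n) (y + n) (y + 3 * n) ⊆ S := by
    intro w hw
    rw [mem_box] at hw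
    rw [hmem]
    omega
  have sB : box (5 * n) (8 * n) (y - 3 * n) (y - n) ⊆ S := by
    intro w hw
    rw [mem_box] at hw
    rw [hmem]
    omega
  have sM : box (5 * n) (6 * n) (-n) n ⊆ S := by
    intro w hw
    rw [mem_box] at hw
    rw [hmem]
    omega
  have g7 : c ≤ pLR (7 * n + 1) n := hc1.trans (pLR_anti (by omega) (by omega) _)
  have g3 : c ≤ pLR (3 * n) (2 * n) := (hc1.trans (pLR_anti (by omega) (by omega) _)).trans
    (pLR_height _ (by omega))
  have g1 : 1 / 2 ≤ pLR n (2 * n) := half_le_pLR (by omega) (by omega) (by omega)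
  have eT : perc half S (fun ω => LR (5 * n) (8 * n) (y + n) (y + 3 * n)
      (ω ∩ edgesIn (box (5 * n) (8 * n) (y + n) (y + 3 * n)))) = pLR (3 * n) (2 * n) := by
    rw [perc_restrict sT, perc_LR]
    have h1 : (8 * (n : ℤ) - 5 * n) = 3 * n := by ring
    have h2 : (y + 3 * (n : ℤ) - (y + n)) = 2 * n := by ring
    rw [h1, h2]
  have eB : perc half S (fun ω => LR (5 * n) (8 * n) (y - 3 * n) (y - n)
      (ω ∩ edgesIn (box (5 * n) (8 * n) (y - 3 * n) (y - n)))) = pLR (3 * n) (2 * n) := by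
    rw [perc_restrict sB, perc_LR]
    have h1 : (8 * (n : ℤ) - 5 * n) = 3 * n := by ring
    have h2 : (y - (n : ℤ) - (y - 3 * n)) = 2 * n := by ring
    rw [h1, h2]
  have eM : perc half S (fun ω => LR (5 * n) (6 * n) (-n) n
      (ω ∩ edgesIn (box (5 * n) (6 * n) (-n) n))) = pLR n (2 * n) := by
    rw [perc_restrict sM, perc_LR]
    have h1 : (6 * (n : ℤ) - 5 * n) = n := by ring
    have h2 : ((n : ℤ) - -n) = 2 * n := by ring
    rw [h1, h2]
  have pU := g7.trans (TU_prob hn)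
  have pD := g7.trans (TDn_prob hn)
  rw [← hS] at pU pD
  have a1 : piQd (6 * n) = armP S (0, 0) (6 * n) := by
    rw [piQd_eq (n := 6 * n) (N := 8 * n) (by push_cast; omega)]
    push_cast
    rfl
  have a2 : pH (3 * n) ≤ armP S (8 * n, y) (3 * n) := by
    rw [← pH_right]
    have := piH_le_armP (S := S) (u := (8 * (n : ℤ), y)) (k := 3 * n) (a := 1) (b := 0) (by
      intro w h1 h2 h3
      rw [abs_le] at h1 h2
      simp only at h1 h2 h3
      have h4 : (w.1 : ℝ) ≤ 8 * n := by push_cast at h3; linarith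
      have h5 : w.1 ≤ 8 * n := by exact_mod_cast h4
      rw [hmem]
      push_cast at h1 h2
      omega)
    push_cast at this ⊢
    exact this
  have u1 := arm_up S (0, 0) (6 * n)
  have u2 := arm_up S (8 * (n : ℤ), y) (3 * n)
  have u3 := up_TU S (5 * n) (6 * n) n (6 * n + 1)
  have u4 := up_TDn S (5 * n) (6 * n) n (6 * n + 1)
  have u5 := up_inter (up_LR (5 * n) (6 * n) (-n) n) (edgesIn (box (5 * n) (6 * n) (-n) n))
  have u6 := up_inter (up_LR (5 * n) (8 * n) (y + n) (y + 3 * n))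
    (edgesIn (box (5 * n) (8 * n) (y + n) (y + 3 * n)))
  have u7 := up_inter (up_LR (5 * n) (8 * n) (y - 3 * n) (y - n))
    (edgesIn (box (5 * n) (8 * n) (y - 3 * n) (y - n)))
  have h12 := perc_harris S u1 u2
  have h34 := perc_harris S u3 u4
  have h67 := perc_harris S u6 u7
  have h567 := perc_harris S u5 (u6.and u7)
  have h34567 := perc_harris S (u3.and u4) (u5.and (u6.and u7))
  have hall := perc_harris S (u1.and u2) ((u3.and u4).and (u5.and (u6.and u7)))
  rw [eT, eB] at h67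
  rw [eM] at h567
  have b1 : piQd (6 * n) * pH (3 * n) ≤ perc half S
      (fun ω => Arm S (0, 0) (6 * n) ω ∧ Arm S (8 * (n : ℤ), y) (3 * n) ω) := by
    refine le_trans ?_ h12
    rw [a1]
    exact mul_le_mul_of_nonneg_left a2 (armP_nonneg _ _ _)
  have b34 : c ^ 2 ≤ perc half S (fun ω => TU S (5 * n) (6 * n) n (6 * n + 1) ω ∧
      TDn S (5 * n) (6 * n) n (6 * n + 1) ω) := by
    refine le_trans ?_ h34
    rw [sq]
    exact mul_le_mul pU pD hc (perc_half_nonneg _ _)
  have b67 := (mul_le_mul g3 g3 hc (pLR_nonneg _ _)).trans h67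
  have b567 := (mul_le_mul g1 b67 (mul_nonneg hc hc) (pLR_nonneg _ _)).trans h567
  have b37 := (mul_le_mul b34 b567 (by positivity) (perc_half_nonneg _ _)).trans h34567
  have bA := (mul_le_mul b1 b37 (by positivity) (perc_half_nonneg _ _)).trans hall
  refine le_trans (le_of_eq ?_) (bA.trans ?_)
  · ring
  unfold cn
  apply perc_half_mono
  rintro ω hω ⟨⟨hA0, hA1⟩, ⟨hU, hD⟩, hM, hT, hB⟩
  obtain ⟨κ, u, v, p, hu, hv, hp⟩ := exists_barrier hn hU hD hM
  have hbar : ∀ {a b : ℤ × ℤ}, a ∈ S → Joined ω a b → a.1 ≤ 5 * n → 6 * n ≤ b.1 →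
      Joined ω κ a := fun ha hj h1 h2 => barrier_meet (S := S) (H := 8 * n + 1) hω (by omega)
    (fun w hw => by rw [hmem] at hw; omega) hu hv p hp ha hj h1 h2
  have up : ∀ {T : Finset (ℤ × ℤ)} {a b : ℤ × ℤ}, Joined (ω ∩ edgesIn T) a b → Joined ω a b :=
    fun h => joined_mono inter_subset_left h
  obtain ⟨t1, t2, i1, i2, i3, i4, hT⟩ := hT
  obtain ⟨s1, s2, j1, j2, j3, j4, hB⟩ := hB
  have m0 : ∀ (u : ℤ × ℤ) (k : ℤ), 0 ≤ k → u ∈ S → u ∈ S ∩ ball u k := by
    intro u k hk hu
    rw [mem_inter, mem_ball]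
    refine ⟨hu, ?_⟩
    simp
    omega
  have q0 : ((0, 0) : ℤ × ℤ) ∈ S := by rw [hmem]; simp only; omega
  have qz : ((8 * (n : ℤ), y) : ℤ × ℤ) ∈ S := by rw [hmem]; simp only; omega
  -- the origin
  have k0 : Joined ω κ (0, 0) := by
    obtain ⟨w, w1, w2⟩ := hA0
    have hw : w ∈ S ∩ ball (0, 0) (6 * n) := mem_of_joined inter_subset_right w2
      (m0 _ _ (by omega) q0)
    rw [mem_inter, hmem, mem_ball] at hw
    apply hbar q0 (up w2) (by simp only; omega)
    unfold AtDist at w1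
    simp only [sub_zero] at w1 hw
    rcases w1 with w1 | w1
    · rcases (abs_eq (by omega)).1 w1 with w1 | w1 <;> omega
    · rcases (abs_eq (by omega)).1 w1 with w1 | w1 <;> omega
  -- the two horizontal crossings
  have kT : Joined ω κ (5 * n, t1) := hbar (sT (by rw [mem_box]; simp only; omega)) (up hT)
    (by simp only; omega) (by simp only; omega)
  have kB : Joined ω κ (5 * n, s1) := hbar (sB (by rw [mem_box]; simp only; omega)) (up hB)
    (by simp only; omega) (by simp only; omega)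
  have cols : ∀ w ∈ S ∩ ball (8 * (n : ℤ), y) (3 * n), 5 * (n : ℤ) ≤ w.1 ∧ w.1 ≤ 8 * n := by
    intro w hw
    rw [mem_inter, mem_ball, hmem, abs_le, abs_le] at hw
    simp only at hw
    omega
  -- the boundary point
  have kz : Joined ω κ (8 * n, y) := by
    obtain ⟨w, w1, w2⟩ := hA1
    have hw : w ∈ S ∩ ball (8 * (n : ℤ), y) (3 * n) := mem_of_joined inter_subset_right w2
      (m0 _ _ (by omega) qz)
    have hw' := hw
    rw [mem_inter, hmem, mem_ball] at hw'
    unfold AtDist at w1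
    simp only at w1 hw'
    rcases w1 with w1 | w1
    · have h5 : w.1 = 5 * n := by
        rcases (abs_eq (by omega)).1 w1 with w1 | w1 <;> omega
      have h6 := hbar (mem_inter.1 hw).1 (joined_symm (up w2)) (by omega) (by simp only; omega)
      exact joined_trans h6 (joined_symm (up w2))
    · rcases (abs_eq (by omega)).1 w1 with w1 | w1
      · have := hcross (D := S) (fun v hv hv' => absurd (sT hv) hv') hT
          (sT (by rw [mem_box]; simp only; omega)) (by rw [mem_box]; simp only; omega)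
          inter_subset_left (joined_symm w2) hw cols (by simp only; omega) (by omega)
          (by simp only; omega)
        exact joined_trans kT (joined_trans (up this) (joined_symm (up w2)))
      · have := hcross (D := S) (fun v hv hv' => absurd (sB hv) hv') hB
          (sB (by rw [mem_box]; simp only; omega)) (by rw [mem_box]; simp only; omega)
          inter_subset_left w2 (m0 _ _ (by omega) qz) cols (by omega) (by simp only; omega)
          (by simp only; omega)
        exact joined_trans kB (up this)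
  exact joined_trans (joined_symm k0) kz

/-- upper bound for the product -/
theorem diag_upper (hD : DiagRule) {c : ℝ} (hc : 0 < c)
    (hc1 : ∀ n : ℕ, 1 ≤ n → c ≤ pLR (8 * n) n) (m : ℕ) : m * piQd m * pH m ≤ 12 / c ^ 4 := by
  have hcle : c ≤ 1 := (hc1 1 le_rfl).trans (perc_half_le_one _ _)
  have hc4 : c ^ 4 ≤ 1 := pow_le_one₀ hc.le hcle
  have hc4' : 0 < c ^ 4 := by positivity
  rw [le_div_iff₀ hc4']
  have n1 := piQd_nonneg m
  have n2 := pH_nonneg m
  rcases Nat.lt_or_ge m 6 with hm | hm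
  · have h3 : piQd m * pH m ≤ 1 := mul_le_one₀ (piQd_le_one m) n2 (piH_le_one 0 1 m)
    have h4 : (m : ℝ) ≤ 6 := by exact_mod_cast hm.le
    have h5 : (m : ℝ) * (piQd m * pH m) ≤ 6 * 1 := mul_le_mul h4 h3 (mul_nonneg n1 n2)
      (by norm_num)
    have h6 : 0 ≤ (m : ℝ) * (piQd m * pH m) := mul_nonneg (Nat.cast_nonneg m) (mul_nonneg n1 n2)
    calc (m : ℝ) * piQd m * pH m * c ^ 4 = (m : ℝ) * (piQd m * pH m) * c ^ 4 := by ring
      _ ≤ (6 * 1) * 1 := mul_le_mul h5 hc4 hc4'.le (by norm_num)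
      _ ≤ 12 := by norm_num
  · set n := m / 6 with hn
    have hn1 : 1 ≤ n := by omega
    have hnm : 6 * n ≤ m := by omega
    have hmn : m ≤ 6 * (n + 1) := by omega
    have hnR : (1 : ℝ) ≤ n := by exact_mod_cast hn1
    have hmR : (m : ℝ) ≤ 6 * ((n : ℝ) + 1) := by exact_mod_cast hmn
    have q1 := piQd_anti hnm
    have q2 : pH m ≤ pH (6 * n) := piH_anti 0 1 hnm
    have q3 : pH (6 * n) ≤ pH (3 * n) := piH_anti 0 1 (by omega)
    have q4 := piQd_nonneg (6 * n)
    have q5 := pH_nonneg (6 * n)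
    have hrule := hD (8 * n) (by omega)
    have hlow : (2 * (n : ℝ) + 1) * (c ^ 4 / 2 * (piQd (6 * n) * pH (3 * n))) ≤ 1 := by
      refine le_trans ?_ hrule.le
      calc (2 * (n : ℝ) + 1) * (c ^ 4 / 2 * (piQd (6 * n) * pH (3 * n)))
          = ∑ _y ∈ Finset.Icc (-(n : ℤ)) n, c ^ 4 / 2 * (piQd (6 * n) * pH (3 * n)) := by
            rw [Finset.sum_const, Int.card_Icc, nsmul_eq_mul]
            congr 1
            have : (((n : ℤ) + 1 - -n).toNat : ℤ) = 2 * n + 1 := by omega
            exact_mod_cast this.symm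
        _ ≤ ∑ y ∈ Finset.Icc (-(n : ℤ)) n, cn (dq (8 * n)) (8 * n, y) := by
            apply Finset.sum_le_sum
            intro y hy
            rw [Finset.mem_Icc] at hy
            exact diag_glue hn1 (abs_le.2 hy) hc.le (hc1 n hn1)
        _ ≤ ∑ y ∈ Finset.Icc (-(8 * (n : ℤ))) (8 * n), cn (dq (8 * n)) (8 * n, y) := by
            apply Finset.sum_le_sum_of_subset_of_nonneg
            · intro y hy
              rw [Finset.mem_Icc] at hy ⊢
              omega
            · intro y _ _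
              exact cn_nonneg _ _
    have r1 : (m : ℝ) * piQd m * pH m ≤ 6 * ((n : ℝ) + 1) * piQd (6 * n) * pH (3 * n) := by
      apply mul_le_mul (mul_le_mul hmR q1 n1 (by positivity)) (q2.trans q3) n2 (by positivity)
    have r2 : 0 ≤ piQd (6 * n) * pH (3 * n) * c ^ 4 :=
      mul_nonneg (mul_nonneg q4 (pH_nonneg _)) hc4'.le
    calc (m : ℝ) * piQd m * pH m * c ^ 4
        ≤ 6 * ((n : ℝ) + 1) * piQd (6 * n) * pH (3 * n) * c ^ 4 :=
          mul_le_mul_of_nonneg_right r1 hc4'.le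
      _ = 6 * ((n : ℝ) + 1) * (piQd (6 * n) * pH (3 * n) * c ^ 4) := by ring
      _ ≤ 6 * (2 * (n : ℝ) + 1) * (piQd (6 * n) * pH (3 * n) * c ^ 4) := by
          apply mul_le_mul_of_nonneg_right _ r2
          linarith
      _ = 12 * ((2 * (n : ℝ) + 1) * (c ^ 4 / 2 * (piQd (6 * n) * pH (3 * n)))) := by ring
      _ ≤ 12 * 1 := mul_le_mul_of_nonneg_left hlow (by norm_num)
      _ = 12 := by norm_num

lemma piQd_zero : piQd 0 = 1 := by
  unfold piQd
  rw [Pool.Agent.Helper69.RSW.perc_half_eq,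
    ← Pool.Agent.Helper69.RSW.P_true (edgesIn (dq ((0 : ℕ) : ℤ)))]
  apply Pool.Agent.Helper69.RSW.P_congr
  intro ω _
  simp only [iff_true]
  exact ⟨(0, 0), by simp, joined_refl _ _⟩

lemma piQ_zero : piQ 0 = 1 := by
  unfold piQ
  rw [Pool.Agent.Helper69.RSW.perc_half_eq,
    ← Pool.Agent.Helper69.RSW.P_true (edgesIn (box 0 ((0 : ℕ) : ℤ) 0 ((0 : ℕ) : ℤ)))]
  apply Pool.Agent.Helper69.RSW.P_congr
  intro ω _
  simp only [iff_true]
  exact ⟨(0, 0), Or.inl (by simp), joined_refl _ _⟩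

/-- comparison of two products -/
lemma compare_prod {n x y h c1 C2 : ℝ} (hc1 : 0 < c1) (hn : 0 < n) (hh : 0 ≤ h) (hC : 0 ≤ C2)
    (h1 : n * x * h ≤ C2) (h2 : c1 ≤ n * y * h) : x ≤ C2 / c1 * y := by
  have hpos : 0 < n * h := by
    rcases hh.eq_or_lt with h0 | h0
    · exfalso
      rw [← h0, mul_zero] at h2
      linarith
    · exact mul_pos hn h0
  have e1 : n * h * x ≤ n * h * (C2 / c1 * y) := by
    calc n * h * x = n * x * h := by ring
      _ ≤ C2 := h1
      _ = C2 / c1 * c1 := by field_simp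
      _ ≤ C2 / c1 * (n * y * h) := mul_le_mul_of_nonneg_left h2 (by positivity)
      _ = _ := by ring
  exact le_of_mul_le_mul_left e1 hpos

/-- **The quadrant one-arm probability is invariant under rotation by 45 degrees, up to
constants.** -/
theorem rotation45 (hR : SumRule) (hC : CrossBound) (hD : DiagRule) :
    ∃ c C : ℝ, 0 < c ∧ 0 < C ∧ (∀ n : ℕ, c * piQ n ≤ piQd n ∧ piQd n ≤ C * piQ n) ∧
      ∀ a b : ℝ, (a ≠ 0 ∨ b ≠ 0) → ∀ n : ℕ, 1 ≤ n →
        c ≤ n * piQd n * piH a b n ∧ n * piQd n * piH a b n ≤ C := by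
  obtain ⟨c1, C1, hc1, hC1, hprod⟩ := arm_product hR hC
  obtain ⟨c0, hc0, hRSW⟩ := hC 8
  have hRSW' : ∀ n : ℕ, 1 ≤ n → c0 ≤ pLR (8 * n) n := fun n hn => by exact_mod_cast hRSW n hn
  set C2 : ℝ := 12 / c0 ^ 4 with hC2
  have hC2pos : 0 < C2 := by positivity
  -- constants for the comparison with `piQ`
  have hupper : ∀ n : ℕ, 1 ≤ n → piQd n ≤ C2 / c1 * piQ n := fun n hn =>
    compare_prod hc1 (by exact_mod_cast hn) (pH_nonneg n) hC2pos.le (diag_upper hD hc0 hRSW' n)
      (hprod 0 1 (Or.inr one_ne_zero) n hn).1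
  have hlower : ∀ n : ℕ, 1 ≤ n → piQ n ≤ C1 / (1 / 7) * piQd n := fun n hn =>
    compare_prod (by norm_num) (by exact_mod_cast hn) (pH_nonneg n) hC1.le
      (hprod 0 1 (Or.inr one_ne_zero) n hn).2 (diag_lower hD hn)
  obtain ⟨A, hA⟩ : ∃ A : ℝ, A = max 1 (C2 / c1) := ⟨_, rfl⟩
  obtain ⟨D, hDD⟩ : ∃ D : ℝ, D = max 1 (C1 / (1 / 7)) := ⟨_, rfl⟩
  have hA1 : 1 ≤ A := hA ▸ le_max_left _ _
  have hD1 : 1 ≤ D := hDD ▸ le_max_left _ _
  have hA2 : C2 / c1 ≤ A := hA ▸ le_max_right _ _
  have hD2 : C1 / (1 / 7) ≤ D := hDD ▸ le_max_right _ _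
  have up : ∀ n : ℕ, piQd n ≤ A * piQ n := by
    intro n
    rcases Nat.eq_zero_or_pos n with rfl | hn
    · rw [piQd_zero, piQ_zero, mul_one]; exact hA1
    · exact (hupper n hn).trans (mul_le_mul_of_nonneg_right hA2 (piQ_nonneg n))
  have lo : ∀ n : ℕ, piQ n ≤ D * piQd n := by
    intro n
    rcases Nat.eq_zero_or_pos n with rfl | hn
    · rw [piQd_zero, piQ_zero, mul_one]; exact hD1
    · exact (hlower n hn).trans (mul_le_mul_of_nonneg_right hD2 (piQd_nonneg n))
  have hD0 : 0 < D := by linarith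
  refine ⟨min (1 / D) (c1 / D), max A (A * C1), lt_min (by positivity) (by positivity),
    lt_of_lt_of_le (by linarith) (le_max_left _ _), fun n => ⟨?_, ?_⟩, fun a b hab n hn => ⟨?_, ?_⟩⟩
  · calc min (1 / D) (c1 / D) * piQ n ≤ 1 / D * piQ n :=
        mul_le_mul_of_nonneg_right (min_le_left _ _) (piQ_nonneg n)
      _ ≤ 1 / D * (D * piQd n) := mul_le_mul_of_nonneg_left (lo n) (by positivity)
      _ = piQd n := by field_simp
  · exact (up n).trans (mul_le_mul_of_nonneg_right (le_max_left _ _) (piQ_nonneg n))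
  · have h1 := (hprod a b hab n hn).1
    have h2 : n * piQ n * piH a b n ≤ D * (n * piQd n * piH a b n) := by
      calc n * piQ n * piH a b n ≤ n * (D * piQd n) * piH a b n := by
            apply mul_le_mul_of_nonneg_right _ (piH_nonneg _ _ _)
            exact mul_le_mul_of_nonneg_left (lo n) (Nat.cast_nonneg n)
        _ = _ := by ring
    refine (min_le_right _ _).trans ?_
    rw [div_le_iff₀ hD0]
    linarith
  · have h1 := (hprod a b hab n hn).2
    calc n * piQd n * piH a b n ≤ n * (A * piQ n) * piH a b n := by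
          apply mul_le_mul_of_nonneg_right _ (piH_nonneg _ _ _)
          exact mul_le_mul_of_nonneg_left (up n) (Nat.cast_nonneg n)
      _ = A * (n * piQ n * piH a b n) := by ring
      _ ≤ A * C1 := mul_le_mul_of_nonneg_left h1 (by linarith)
      _ ≤ _ := le_max_right _ _

end H47Perc
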