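import Pool.Agent.Helper47.Perc.GenFlat
import Pool.Agent.Helper69.RSW.DQ

/-!
The exact rule for the diagonal quadrant (by helper69, from helper25's `row_rule`).
-/

set_option autoImplicit false

namespace H47Perc
open Finset

/-- the diagonal quadrant, transposed: `|x| ≤ y ≤ N` -/
noncomputable def dqT (N : ℤ) : Finset (ℤ × ℤ) := (dq N).map transp.toEmbedding

lemma mem_dqT {N x y : ℤ} : (x, y) ∈ dqT N ↔ |x| ≤ y ∧ y ≤ N := by
  unfold dqT
  rw [mem_map_equiv, mem_dq]
  rfl

lemma dqT_row {N : ℤ} (hN : 0 ≤ N) : RowConvex 0 N (fun y => -y) (fun y => y) (dqT N) where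
  hab := hN
  mem x y := by
    rw [mem_dqT, abs_le]
    omega
  lr := by intros; omega
  o1 := by intros; omega
  o2 := by intros; omega

lemma cn_dqT (N : ℤ) (z : ℤ × ℤ) : cn (dqT N) (transp z) = cn (dq N) z := by
  unfold cn dqT
  rw [perc_half_map transp_iso]
  congr 1
  funext ω
  have := joined_map (f := transp) (ω := ω) (u := (0, 0)) (v := z)
  exact propext this

lemma dqT_reflX (N : ℤ) : (dqT N).map reflX.toEmbedding = dqT N := by
  ext ⟨x, y⟩
  rw [mem_map_equiv]
  have : reflX.symm (x, y) = (-x, y) := rfl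
  rw [this, mem_dqT, mem_dqT, abs_neg]

lemma cn_dqT_reflX (N x y : ℤ) : cn (dqT N) (-x, y) = cn (dqT N) (x, y) := by
  unfold cn
  conv_lhs => rw [← dqT_reflX N, perc_half_map reflX_sym.1]
  congr 1
  funext ω
  have := joined_map (f := reflX) (ω := ω) (u := (0, 0)) (v := (x, y))
  exact propext this

lemma perc_refl_one (S : Finset (ℤ × ℤ)) (u : ℤ × ℤ) :
    perc half S (fun ω => Joined ω u u) = 1 := by
  rw [Pool.Agent.Helper69.RSW.perc_half_eq, ← Pool.Agent.Helper69.RSW.P_true (edgesIn S)]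
  apply Pool.Agent.Helper69.RSW.P_congr
  intro ω _
  simp only [iff_true]
  exact joined_refl _ _

/-- **The exact rule for the diagonal quadrant.** -/
theorem diag_rule : DiagRule := by
  classical
  intro N hN
  have H := dqT_row hN
  have m : ∀ x y : ℤ, (x, y) ∈ dqT N ↔ 0 ≤ y ∧ y ≤ N ∧ -y ≤ x ∧ x ≤ y := H.mem
  have h := (row_rule (1/2) H (x₀ := 0) (by simp) (by simp)).1
  rw [aniso_half] at h
  have eR : ∑ z ∈ (dqT N).filter (fun z => z + (1, 0) ∉ dqT N),
      perc half (dqT N) (fun ω => Joined ω (0, 0) z) =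
      ∑ y ∈ Icc 0 N, cn (dqT N) (y, y) := by
    symm
    apply sum_bij' (fun y _ => ((y, y) : ℤ × ℤ)) (fun z _ => z.2)
    · intro y hy
      rw [mem_Icc] at hy
      rw [mem_filter, Prod.mk_add_mk, m, m]
      omega
    · rintro ⟨x, y⟩ hz
      rw [mem_filter, Prod.mk_add_mk, m, m] at hz
      rw [mem_Icc]
      simp only
      omega
    · intro y _; rfl
    · rintro ⟨x, y⟩ hz
      rw [mem_filter, Prod.mk_add_mk, m, m] at hz
      rw [Prod.mk.injEq]
      constructor <;> (try simp only) <;> omega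
    · intro y _; rfl
  have eT : ∑ z ∈ (dqT N).filter (fun z => z + (0, 1) ∉ dqT N),
      perc half (dqT N) (fun ω => Joined ω (0, 0) z) =
      ∑ x ∈ Icc (-N) N, cn (dqT N) (x, N) := by
    symm
    apply sum_bij' (fun x _ => ((x, N) : ℤ × ℤ)) (fun z _ => z.1)
    · intro y hy
      rw [mem_Icc] at hy
      rw [mem_filter, Prod.mk_add_mk, m, m]
      omega
    · rintro ⟨x, y⟩ hz
      rw [mem_filter, Prod.mk_add_mk, m, m] at hz
      rw [mem_Icc]
      simp only
      omega
    · intro y _; rfl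
    · rintro ⟨x, y⟩ hz
      rw [mem_filter, Prod.mk_add_mk, m, m] at hz
      rw [Prod.mk.injEq]
      constructor <;> (try simp only) <;> omega
    · intro y _; rfl
  have eB : ∑ z ∈ (dqT N).filter (fun z => z + (0, -1) ∉ dqT N ∧ BefB 0 (fun y => -y) 0 z),
      perc half (dqT N) (fun ω => Joined ω (0, 0) z) =
      ∑ y ∈ Icc 1 N, cn (dqT N) (-y, y) := by
    symm
    apply sum_bij' (fun y _ => ((-y, y) : ℤ × ℤ)) (fun z _ => z.2)
    · intro y hy
      rw [mem_Icc] at hy
      rw [mem_filter, Prod.mk_add_mk, m, m]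
      unfold BefB
      simp only
      omega
    · rintro ⟨x, y⟩ hz
      rw [mem_filter, Prod.mk_add_mk, m, m] at hz
      unfold BefB at hz
      simp only at hz
      rw [mem_Icc]
      simp only
      omega
    · intro y _; rfl
    · rintro ⟨x, y⟩ hz
      rw [mem_filter, Prod.mk_add_mk, m, m] at hz
      unfold BefB at hz
      simp only at hz
      rw [Prod.mk.injEq]
      constructor <;> (try simp only) <;> omega
    · intro y _; rfl
  rw [eR, eT, eB] at h
  have e1 : ∑ y ∈ Icc 1 N, cn (dqT N) (-y, y) = ∑ y ∈ Icc 1 N, cn (dqT N) (y, y) :=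
    sum_congr rfl (fun y _ => cn_dqT_reflX N y y)
  have e2 : ∑ y ∈ Icc 0 N, cn (dqT N) (y, y) = 1 + ∑ y ∈ Icc 1 N, cn (dqT N) (y, y) := by
    have h1 : Icc 0 N = insert 0 (Icc 1 N) := by
      ext y
      rw [mem_insert, mem_Icc, mem_Icc]
      omega
    rw [h1, sum_insert (by rw [mem_Icc]; omega)]
    congr 1
    exact perc_refl_one _ _
  have e3 : ∑ x ∈ Icc (-N) N, cn (dqT N) (x, N) = ∑ y ∈ Icc (-N) N, cn (dq N) (N, y) :=
    sum_congr rfl (fun y _ => cn_dqT N (N, y))
  rw [e1, e2, e3] at h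
  linarith

end H47Perc
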